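import Mathlib
import Pool.Agent.N604.MW.Stm10

/-!
# Project AD (helper604), part AL2: second moment of one exponential sum

The lemmas `e_cont`, `e_nrm`, `int_e`, `integrable_of` are those of helper749 (N749/KW_DSup).
-/

set_option autoImplicit false

namespace Pool.Agent.N499.AD

open Finset MeasureTheory Pool.Agent.N604.MW

theorem e_cont : Continuous e := by
  unfold e
  fun_prop

theorem e_nrm (x : ℝ) : ‖e x‖ = 1 := by
  unfold e
  rw [show (2 * (Real.pi : ℂ) * x * Complex.I) = ((2 * Real.pi * x : ℝ) : ℂ) * Complex.I by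
    push_cast; ring]
  exact Complex.norm_exp_ofReal_mul_I _

theorem int_e (t : ℝ) : ∫ a, e (a * t) ∂G1 =
    ((Real.exp (-(2 * Real.pi ^ 2 * t ^ 2)) : ℝ) : ℂ) := by
  have h := ProbabilityTheory.charFun_gaussianReal (μ := 0) (v := 1) (2 * Real.pi * t)
  rw [MeasureTheory.charFun_apply_real] at h
  unfold G1
  have e1 : (fun a : ℝ => e (a * t)) = fun x : ℝ =>
      Complex.exp (((2 * Real.pi * t : ℝ) : ℂ) * (x : ℂ) * Complex.I) := by
    funext a
    unfold e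
    congr 1
    push_cast
    ring
  rw [e1, h, Complex.ofReal_exp]
  congr 1
  push_cast
  ring

instance : IsProbabilityMeasure G1 := by
  unfold G1
  infer_instance

theorem integrable_of {E : Type*} [NormedAddCommGroup E] [SecondCountableTopology E]
    [MeasurableSpace E] [BorelSpace E] {f : ℝ → E} (hf : Continuous f) (C : ℝ)
    (hC : ∀ a, ‖f a‖ ≤ C) : Integrable f G1 :=
  (integrable_const C).mono' hf.aestronglyMeasurable (Filter.Eventually.of_forall hC)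

/-! ### Numbers -/

lemma exp_le (u : ℝ) : Real.exp (-(2 * Real.pi ^ 2 * u ^ 2)) ≤ 2 / (1 + |u|) ^ 2 := by
  rw [Real.exp_neg, ← one_div, div_le_div_iff₀ (Real.exp_pos _) (by positivity)]
  have h1 := Real.add_one_le_exp (2 * Real.pi ^ 2 * u ^ 2)
  have h2 : (1 : ℝ) ≤ Real.pi ^ 2 := by nlinarith [Real.pi_gt_three]
  have h3 : u ^ 2 ≤ 2 * Real.pi ^ 2 * u ^ 2 := by nlinarith [sq_nonneg u]
  have h4 : |u| ^ 2 = u ^ 2 := sq_abs u
  nlinarith [sq_nonneg (|u| - 1)]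

lemma tele (c : ℝ) (hc : 0 < c) (n : ℕ) :
    ∑ h ∈ range n, 1 / (1 + c * ((h : ℝ) + 1)) ^ 2 ≤ 1 / c := by
  have key : ∑ h ∈ range n, 1 / (1 + c * ((h : ℝ) + 1)) ^ 2 ≤
      (1 / c) * (1 - 1 / (1 + c * n)) := by
    induction n with
    | zero => simp
    | succ n ih =>
      rw [sum_range_succ]
      have hn : (0 : ℝ) ≤ n := Nat.cast_nonneg n
      have h1 : 0 < 1 + c * (n : ℝ) := by positivity
      have h2 : 0 < 1 + c * ((n : ℝ) + 1) := by positivity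
      have h3 : 1 / (1 + c * ((n : ℝ) + 1)) ^ 2 ≤
          (1 / c) * (1 / (1 + c * n) - 1 / (1 + c * ((n : ℝ) + 1))) := by
        have h4 : (1 / c) * (1 / (1 + c * n) - 1 / (1 + c * ((n : ℝ) + 1))) =
            1 / ((1 + c * n) * (1 + c * ((n : ℝ) + 1))) := by
          field_simp
          ring
        rw [h4]
        apply one_div_le_one_div_of_le (by positivity)
        nlinarith
      push_cast
      have h5 : (1 / c) * (1 - 1 / (1 + c * ((n : ℝ) + 1))) = (1 / c) * (1 - 1 / (1 + c * n)) +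
          (1 / c) * (1 / (1 + c * n) - 1 / (1 + c * ((n : ℝ) + 1))) := by ring
      rw [h5]
      exact add_le_add ih h3
  refine key.trans ?_
  have h0 : 0 ≤ 1 / (1 + c * (n : ℝ)) := by positivity
  have h1 : 0 < 1 / c := by positivity
  nlinarith

/-- the expectation of one term -/
noncomputable def Aa (k : ℕ) (t : ℝ) (x y : ℕ) : ℝ :=
  Real.exp (-(2 * Real.pi ^ 2 * (t * ((x : ℝ) ^ k - (y : ℝ) ^ k)) ^ 2))

lemma Aa_nonneg (k : ℕ) (t : ℝ) (x y : ℕ) : 0 ≤ Aa k t x y := (Real.exp_pos _).le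

lemma Aa_le_one (k : ℕ) (t : ℝ) (x y : ℕ) : Aa k t x y ≤ 1 := by
  unfold Aa
  rw [Real.exp_le_one_iff]
  have : 0 ≤ 2 * Real.pi ^ 2 * (t * ((x : ℝ) ^ k - (y : ℝ) ^ k)) ^ 2 := by positivity
  linarith

lemma Aa_symm (k : ℕ) (t : ℝ) (x y : ℕ) : Aa k t x y = Aa k t y x := by
  unfold Aa
  congr 1
  ring

lemma Sx_one (k : ℕ) (t : ℝ) (x : ℕ) : ∑ y ∈ range x, Aa k t x y ≤ x := by
  calc ∑ y ∈ range x, Aa k t x y ≤ ∑ y ∈ range x, (1 : ℝ) :=
        sum_le_sum fun y _ => Aa_le_one k t x y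
    _ = x := by simp

lemma Sx_two (k : ℕ) (t : ℝ) (ht : 0 < |t|) (x : ℕ) (hx : 1 ≤ x) :
    ∑ y ∈ range x, Aa (k + 1) t x y ≤ 2 / (|t| * (x : ℝ) ^ k) := by
  have hx0 : (0 : ℝ) < x := by exact_mod_cast hx
  set c : ℝ := |t| * (x : ℝ) ^ k with hc
  have hc0 : 0 < c := by positivity
  have h1 : ∑ y ∈ range x, Aa (k + 1) t x y ≤
      ∑ y ∈ range x, (fun h : ℕ => 2 * (1 / (1 + c * ((h : ℝ) + 1)) ^ 2)) (x - 1 - y) := by
    apply sum_le_sum
    intro y hy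
    rw [mem_range] at hy
    have hyx : (y : ℝ) < x := by exact_mod_cast hy
    have hy0 : (0 : ℝ) ≤ y := Nat.cast_nonneg y
    have e1 : (((x - 1 - y : ℕ) : ℝ) + 1) = x - y := by
      have : (x - 1 - y) + 1 + y = x := by omega
      have h2 : (((x - 1 - y : ℕ) : ℝ) + 1 + y) = x := by exact_mod_cast this
      linarith
    show Aa (k + 1) t x y ≤ 2 * (1 / (1 + c * (((x - 1 - y : ℕ) : ℝ) + 1)) ^ 2)
    rw [e1]
    unfold Aa
    refine (exp_le _).trans ?_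
    rw [← mul_one_div]
    refine mul_le_mul_of_nonneg_left ?_ (by norm_num)
    have h3 : 0 ≤ c * ((x : ℝ) - y) := mul_nonneg hc0.le (by linarith)
    apply one_div_le_one_div_of_le (by positivity)
    apply pow_le_pow_left₀ (by positivity)
    have h4 : (y : ℝ) ^ k ≤ (x : ℝ) ^ k := pow_le_pow_left₀ hy0 hyx.le k
    have h5 : (x : ℝ) ^ k * (x - y) ≤ (x : ℝ) ^ (k + 1) - (y : ℝ) ^ (k + 1) := by
      rw [pow_succ, pow_succ]
      nlinarith
    have h6 : 0 ≤ (x : ℝ) ^ (k + 1) - (y : ℝ) ^ (k + 1) :=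
      le_trans (mul_nonneg (by positivity) (by linarith)) h5
    rw [abs_mul, abs_of_nonneg h6, hc, mul_assoc]
    have := mul_le_mul_of_nonneg_left h5 ht.le
    linarith
  refine h1.trans ?_
  rw [Finset.sum_range_reflect (fun h : ℕ => 2 * (1 / (1 + c * ((h : ℝ) + 1)) ^ 2)) x, ← mul_sum]
  have h2 := tele c hc0 x
  calc 2 * ∑ h ∈ range x, 1 / (1 + c * ((h : ℝ) + 1)) ^ 2 ≤ 2 * (1 / c) := by linarith
    _ = 2 / c := by ring

lemma Sx_le (m : ℕ) (t x0 : ℝ) (ht : 0 < |t|) (hx0 : 0 < x0) (h : |t| * x0 ^ (m + 3) = 1) (x : ℕ) :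
    ∑ y ∈ range x, Aa (m + 3) t x y ≤ 8 * x0 * (1 / (1 + 1 / x0 * x) ^ 2) := by
  have hx : (0 : ℝ) ≤ x := Nat.cast_nonneg x
  have hpos : 0 < (1 + 1 / x0 * (x : ℝ)) ^ 2 := by positivity
  rcases le_or_gt (x : ℝ) x0 with h1 | h1
  · refine (Sx_one _ t x).trans (h1.trans ?_)
    have h2 : 1 / x0 * (x : ℝ) ≤ 1 := by
      rw [one_div, inv_mul_le_iff₀ hx0]
      linarith
    have h3 : 0 ≤ 1 / x0 * (x : ℝ) := by positivity
    rw [mul_one_div, le_div_iff₀ hpos]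
    have h4 : (1 + 1 / x0 * (x : ℝ)) ^ 2 ≤ 4 := by nlinarith
    nlinarith
  · have hx1 : (0 : ℝ) < x := hx0.trans h1
    have hx2 : 1 ≤ x := by
      have : 0 < x := by exact_mod_cast hx1
      omega
    refine (Sx_two (m + 2) t ht x hx2).trans ?_
    rw [mul_one_div, div_le_div_iff₀ (by positivity) hpos]
    have h2 : 1 ≤ 1 / x0 * (x : ℝ) := by
      rw [one_div, ← div_eq_inv_mul, one_le_div hx0]
      exact h1.le
    have h3 : (1 + 1 / x0 * (x : ℝ)) ^ 2 ≤ 4 * (1 / x0 * (x : ℝ)) ^ 2 := by nlinarith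
    have h4 : x0 ^ m ≤ (x : ℝ) ^ m := pow_le_pow_left₀ hx0.le h1.le m
    have h5 : (1 / x0 * (x : ℝ)) ^ 2 ≤ x0 * (|t| * (x : ℝ) ^ (m + 2)) := by
      have e1 : (1 / x0 * (x : ℝ)) ^ 2 = x0 * (|t| * (x0 ^ m * (x : ℝ) ^ 2)) := by
        have : x0 * (|t| * (x0 ^ m * (x : ℝ) ^ 2)) = (|t| * x0 ^ (m + 3)) * (1 / x0 * (x : ℝ)) ^ 2 := by
          field_simp
          ring
        rw [this, h, one_mul]
      rw [e1, pow_add]
      have h6 : x0 ^ m * (x : ℝ) ^ 2 ≤ (x : ℝ) ^ m * (x : ℝ) ^ 2 :=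
        mul_le_mul_of_nonneg_right h4 (by positivity)
      exact mul_le_mul_of_nonneg_left (mul_le_mul_of_nonneg_left h6 ht.le) hx0.le
    nlinarith

lemma dbl (P : ℕ) (A : ℕ → ℕ → ℝ) (h1 : ∀ x, A x x ≤ 1) (hs : ∀ x y, A x y = A y x) :
    ∑ x ∈ range P, ∑ y ∈ range P, A x y ≤ P + 2 * ∑ x ∈ range P, ∑ y ∈ range x, A x y := by
  induction P with
  | zero => simp
  | succ P ih =>
    rw [sum_range_succ (fun x => ∑ y ∈ range (P + 1), A x y)]
    have e1 : ∑ x ∈ range P, ∑ y ∈ range (P + 1), A x y =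
        ∑ x ∈ range P, ∑ y ∈ range P, A x y + ∑ x ∈ range P, A x P := by
      rw [← sum_add_distrib]
      apply sum_congr rfl
      intro x _
      rw [sum_range_succ]
    rw [e1, sum_range_succ (fun y => A P y), sum_range_succ (fun x => ∑ y ∈ range x, A x y)]
    have e2 : ∑ x ∈ range P, A x P = ∑ y ∈ range P, A P y := sum_congr rfl (fun x _ => hs x P)
    rw [e2]
    push_cast
    linarith [h1 P]

lemma total (m : ℕ) (t x0 : ℝ) (ht : 0 < |t|) (hx0 : 0 < x0) (h : |t| * x0 ^ (m + 3) = 1) (P : ℕ) :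
    ∑ x ∈ range P, ∑ y ∈ range P, Aa (m + 3) t x y ≤ P + 16 * x0 ^ 2 := by
  refine (dbl P _ (fun x => Aa_le_one _ t x x) (Aa_symm _ t)).trans ?_
  have h1 : ∑ x ∈ range P, ∑ y ∈ range x, Aa (m + 3) t x y ≤ 8 * x0 ^ 2 := by
    have h2 : ∑ x ∈ range P, ∑ y ∈ range x, Aa (m + 3) t x y ≤
        ∑ x ∈ range (P + 1), ∑ y ∈ range x, Aa (m + 3) t x y := by
      rw [sum_range_succ]
      have : 0 ≤ ∑ y ∈ range P, Aa (m + 3) t P y := sum_nonneg fun y _ => Aa_nonneg _ t P y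
      linarith
    refine h2.trans ?_
    rw [sum_range_succ', range_zero, sum_empty, add_zero]
    calc ∑ x ∈ range P, ∑ y ∈ range (x + 1), Aa (m + 3) t (x + 1) y ≤
        ∑ x ∈ range P, 8 * x0 * (1 / (1 + 1 / x0 * ((x : ℝ) + 1)) ^ 2) := by
          apply sum_le_sum
          intro x _
          have := Sx_le m t x0 ht hx0 h (x + 1)
          push_cast at this
          exact this
      _ = 8 * x0 * ∑ x ∈ range P, 1 / (1 + 1 / x0 * ((x : ℝ) + 1)) ^ 2 := by rw [mul_sum]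
      _ ≤ 8 * x0 * (1 / (1 / x0)) :=
          mul_le_mul_of_nonneg_left (tele (1 / x0) (by positivity) P) (by positivity)
      _ = 8 * x0 ^ 2 := by rw [one_div_one_div]; ring
  linarith

/-! ### Integers -/

lemma sum_BX (ν : ℕ) (g : ℕ → ℝ) (hg : ∀ n, 0 ≤ g n) :
    ∑ x ∈ BX ν, g x.natAbs ≤ 2 * ∑ n ∈ range (2 ^ ν), g n := by
  classical
  set A := (range (2 ^ ν)).image (fun n : ℕ => (n : ℤ)) with hA
  set B := (range (2 ^ ν)).image (fun n : ℕ => -(n : ℤ)) with hB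
  have hsub : BX ν ⊆ A ∪ B := by
    intro x hx
    unfold BX at hx
    rw [mem_Ioo] at hx
    have hP : ((2 ^ ν : ℕ) : ℤ) = 2 ^ ν := by push_cast; rfl
    rw [← hP] at hx
    rw [mem_union, hA, hB, mem_image, mem_image]
    generalize 2 ^ ν = P at hx ⊢
    rcases le_total 0 x with h | h
    · left
      refine ⟨x.natAbs, ?_, ?_⟩
      · rw [mem_range]
        omega
      · omega
    · right
      refine ⟨x.natAbs, ?_, ?_⟩
      · rw [mem_range]
        omega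
      · omega
  have h1 : ∑ x ∈ BX ν, g x.natAbs ≤ ∑ x ∈ A ∪ B, g x.natAbs :=
    sum_le_sum_of_subset_of_nonneg hsub fun x _ _ => hg _
  have h2 := sum_union_inter (s₁ := A) (s₂ := B) (f := fun x : ℤ => g x.natAbs)
  have h3 : 0 ≤ ∑ x ∈ A ∩ B, g x.natAbs := sum_nonneg fun x _ => hg _
  have h4 : ∑ x ∈ A, g x.natAbs = ∑ n ∈ range (2 ^ ν), g n := by
    rw [hA, sum_image (fun a _ b _ hab => by exact_mod_cast hab)]
    apply sum_congr rfl
    intro n _
    simp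
  have h5 : ∑ x ∈ B, g x.natAbs = ∑ n ∈ range (2 ^ ν), g n := by
    rw [hB, sum_image (fun a _ b _ hab => by
      have : (a : ℤ) = b := neg_injective hab
      exact_mod_cast this)]
    apply sum_congr rfl
    intro n _
    simp
  linarith

lemma natAbs_cast (x : ℤ) : ((x.natAbs : ℕ) : ℝ) = |(x : ℝ)| := by
  rw [Nat.cast_natAbs, Int.cast_abs]

/-! ### The second moment -/

/-- the square of the norm -/
lemma norm_sq (k ν : ℕ) (t a : ℝ) : ((‖SG (BX ν) (fk k a) t‖ ^ 2 : ℝ) : ℂ) =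
    ∑ x ∈ BX ν, ∑ y ∈ BX ν, e (a * (t * (|(x : ℝ)| ^ k - |(y : ℝ)| ^ k))) := by
  have h1 : ((‖SG (BX ν) (fk k a) t‖ ^ 2 : ℝ) : ℂ) =
      SG (BX ν) (fk k a) t * (starRingEnd ℂ) (SG (BX ν) (fk k a) t) := by
    rw [Complex.mul_conj, Complex.normSq_eq_norm_sq]
  rw [h1]
  unfold SG
  rw [map_sum, sum_mul_sum]
  apply sum_congr rfl
  intro x _
  apply sum_congr rfl
  intro y _
  unfold e fk
  rw [← Complex.exp_conj, ← Complex.exp_add]
  congr 1
  simp only [map_mul, Complex.conj_I, Complex.conj_ofReal, map_ofNat]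
  push_cast
  ring

lemma mom2 (k ν : ℕ) (t : ℝ) : ∫ a, ‖SG (BX ν) (fk k a) t‖ ^ 2 ∂G1 =
    ∑ x ∈ BX ν, ∑ y ∈ BX ν, Aa k t x.natAbs y.natAbs := by
  have hint : ∀ x y : ℤ, Integrable (fun a : ℝ => e (a * (t * (|(x : ℝ)| ^ k - |(y : ℝ)| ^ k)))) G1 :=
    fun x y => integrable_of (e_cont.comp (by fun_prop)) 1 fun a => (e_nrm _).le
  have h1 : ((∫ a, ‖SG (BX ν) (fk k a) t‖ ^ 2 ∂G1 : ℝ) : ℂ) =
      ((∑ x ∈ BX ν, ∑ y ∈ BX ν, Aa k t x.natAbs y.natAbs : ℝ) : ℂ) := by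
    rw [← integral_complex_ofReal]
    simp only [norm_sq]
    rw [integral_finsetSum _ fun x _ => integrable_finsetSum _ fun y _ => hint x y]
    push_cast
    apply sum_congr rfl
    intro x _
    rw [integral_finsetSum _ fun y _ => hint x y]
    apply sum_congr rfl
    intro y _
    rw [int_e]
    unfold Aa
    rw [natAbs_cast, natAbs_cast]
  exact_mod_cast h1

lemma SG_cont (k ν : ℕ) (t : ℝ) : Continuous fun a : ℝ => SG (BX ν) (fk k a) t := by
  unfold SG fk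
  exact continuous_finsetSum _ fun x _ => e_cont.comp (by fun_prop)

lemma SG_norm (k ν : ℕ) (t a : ℝ) : ‖SG (BX ν) (fk k a) t‖ ≤ (BX ν).card := by
  unfold SG
  refine (norm_sum_le _ _).trans ?_
  simp only [e_nrm]
  simp

/-- the part AD/AL2 -/
theorem al2 : S_AL2 := by
  intro k hk
  obtain ⟨m, rfl⟩ : ∃ m, k = m + 3 := ⟨k - 3, by omega⟩
  refine ⟨64, by norm_num, ?_⟩
  intro ν t ht _
  set x0 : ℝ := |t| ^ (-(1 / ((m + 3 : ℕ) : ℝ))) with hx0def
  have hx0 : 0 < x0 := Real.rpow_pos_of_pos ht _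
  have hk0 : ((m + 3 : ℕ) : ℝ) ≠ 0 := by positivity
  have h1 : |t| * x0 ^ (m + 3) = 1 := by
    rw [hx0def, ← Real.rpow_natCast, ← Real.rpow_mul ht.le]
    have : -(1 / ((m + 3 : ℕ) : ℝ)) * ((m + 3 : ℕ) : ℝ) = -1 := by
      field_simp
    rw [this, Real.rpow_neg_one, mul_inv_cancel₀ ht.ne']
  have h2 : x0 ^ 2 = |t| ^ (-(2 / ((m + 3 : ℕ) : ℝ))) := by
    rw [hx0def, ← Real.rpow_natCast, ← Real.rpow_mul ht.le]
    congr 1
    push_cast
    ring
  have hI : Integrable (fun a => ‖SG (BX ν) (fk (m + 3) a) t‖ ^ 2) G1 :=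
    integrable_of ((SG_cont _ ν t).norm.pow 2) (((BX ν).card : ℝ) ^ 2) fun a => by
      rw [norm_pow, norm_norm]
      exact pow_le_pow_left₀ (norm_nonneg _) (SG_norm _ ν t a) 2
  rw [← ofReal_integral_eq_lintegral_ofReal hI (Filter.Eventually.of_forall fun a => by positivity)]
  apply ENNReal.ofReal_le_ofReal
  rw [mom2, ← h2]
  have h3 : ∑ x ∈ BX ν, ∑ y ∈ BX ν, Aa (m + 3) t x.natAbs y.natAbs ≤
      2 * ∑ x ∈ range (2 ^ ν), 2 * ∑ y ∈ range (2 ^ ν), Aa (m + 3) t x y := by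
    calc ∑ x ∈ BX ν, ∑ y ∈ BX ν, Aa (m + 3) t x.natAbs y.natAbs ≤
        ∑ x ∈ BX ν, (fun n : ℕ => 2 * ∑ y ∈ range (2 ^ ν), Aa (m + 3) t n y) x.natAbs := by
          apply sum_le_sum
          intro x _
          exact sum_BX ν (fun n => Aa (m + 3) t x.natAbs n) (fun n => Aa_nonneg _ t _ n)
      _ ≤ 2 * ∑ x ∈ range (2 ^ ν), 2 * ∑ y ∈ range (2 ^ ν), Aa (m + 3) t x y :=
          sum_BX ν _ fun n => mul_nonneg (by norm_num) (sum_nonneg fun y _ => Aa_nonneg _ t n y)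
  refine h3.trans ?_
  rw [← mul_sum]
  have h4 := total m t x0 ht hx0 h1 (2 ^ ν)
  push_cast at h4
  have h5 : (0 : ℝ) < 2 ^ ν := by positivity
  nlinarith [sq_nonneg x0]

end Pool.Agent.N499.AD
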