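import Mathlib
import Pool.Agent.N906.KG.Grid
import Pool.Agent.W223.AK.Basic
import Pool.Agent.N803.RS_CNT

/-!
# Project KG, part LOG: the lower bound (helper499 for helper906)
-/

set_option autoImplicit false
set_option linter.unusedSectionVars false

namespace Pool.Agent.N499.KG

open NumberField IsDedekindDomain Finset Filter Topology Pool.Agent.H691R3 Pool.Agent.W223.AK
open Pool.Agent.N906.KG
open Pool.Agent.N906.NT (Cx cst)

variable {K : Type} [Field K] [NumberField K] {q r n : ℕ}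

/-! ### tuples of ideals -/

theorem len_single (v : Pr K) (n : ℕ) : len (Finsupp.single v n : Idl K) = n * Real.log (Nv v) := by
  rw [len_eq_sum (s := {v}) Finsupp.support_single_subset]
  simp

theorem mem_sp (D : Fin n → Idl K) (v : Pr K) : v ∈ sp D ↔ ∃ i, D i v ≠ 0 := by
  classical
  unfold sp
  rw [Finset.mem_biUnion]
  simp only [Finset.mem_univ, true_and, Finsupp.mem_support_iff]

theorem sp_mono {D P : Fin n → Idl K} (h : ∀ i, D i ≤ P i) : sp D ⊆ sp P := by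
  intro v hv
  rw [mem_sp] at hv ⊢
  obtain ⟨i, hi⟩ := hv
  refine ⟨i, ?_⟩
  have := h i v
  omega

theorem tl_eq (D : Fin n → Idl K) {s : Finset (Pr K)} (hs : sp D ⊆ s) :
    tl D = ∑ v ∈ s, ((∑ i, D i v : ℕ) : ℝ) * Real.log (Nv v) := by
  unfold tl
  have h : ∀ i, len (D i) = ∑ v ∈ s, (D i v : ℝ) * Real.log (Nv v) := by
    intro i
    apply len_eq_sum
    intro v hv
    exact hs ((mem_sp D v).2 ⟨i, Finsupp.mem_support_iff.1 hv⟩)
  simp only [h]
  rw [Finset.sum_comm]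
  refine Finset.sum_congr rfl fun v _ => ?_
  push_cast
  rw [Finset.sum_mul]

theorem gl_eq (D : Fin n → Idl K) {s : Finset (Pr K)} (hs : sp D ⊆ s) :
    gl D = ∑ v ∈ s, (((∑ i, D i v) - 1 : ℕ) : ℝ) * Real.log (Nv v) := by
  have h1 : gl D = ∑ v ∈ sp D, (((∑ i, D i v) - 1 : ℕ) : ℝ) * Real.log (Nv v) := by
    unfold gl tr
    rw [tl_eq D (Finset.Subset.refl _), ← Finset.sum_sub_distrib]
    refine Finset.sum_congr rfl fun v hv => ?_
    obtain ⟨i, hi⟩ := (mem_sp D v).1 hv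
    have h2 : D i v ≤ ∑ i, D i v :=
      Finset.single_le_sum (f := fun i => D i v) (fun _ _ => Nat.zero_le _) (Finset.mem_univ i)
    rw [Nat.cast_sub (by omega)]
    push_cast
    ring
  rw [h1]
  refine Finset.sum_subset hs fun v _ hv => ?_
  have h2 : ∑ i, D i v = 0 := by
    apply Finset.sum_eq_zero
    intro i _
    by_contra h
    exact hv ((mem_sp D v).2 ⟨i, h⟩)
  rw [h2]
  simp

theorem gl_mono {D P : Fin n → Idl K} (h : ∀ i, D i ≤ P i) : gl D ≤ gl P := by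
  rw [gl_eq D (sp_mono h), gl_eq P (Finset.Subset.refl _)]
  refine Finset.sum_le_sum fun v _ => ?_
  apply mul_le_mul_of_nonneg_right _ (log_Nv_pos v).le
  have h1 : ∑ i, D i v ≤ ∑ i, P i v := Finset.sum_le_sum fun i _ => h i v
  exact_mod_cast Nat.sub_le_sub_right h1 1

theorem tl_nonneg (D : Fin n → Idl K) : 0 ≤ tl D := Finset.sum_nonneg fun _ _ => len_nonneg _

theorem tr_nonneg (D : Fin n → Idl K) : 0 ≤ tr D := Finset.sum_nonneg fun v _ => (log_Nv_pos v).le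

theorem om_le (D : Fin n → Idl K) : (om D : ℝ) * Real.log 2 ≤ tr D := by
  unfold om tr
  rw [← nsmul_eq_mul, ← Finset.sum_const]
  exact Finset.sum_le_sum fun v _ => log_two_le_log_Nv v

/-- one more power of `v` in the ideal `l` -/
noncomputable def Dp (D : Fin n → Idl K) (l : Fin n) (v : Pr K) (m : ℕ) : Fin n → Idl K := fun l' =>
  D l' + if l' = l then Finsupp.single v m else 0

theorem tl_Dp (D : Fin n → Idl K) (l : Fin n) (v : Pr K) (m : ℕ) :
    tl (Dp D l v m) = tl D + m * Real.log (Nv v) := by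
  have h : ∀ l', len (Dp D l v m l') = len (D l') +
      if l' = l then (m : ℝ) * Real.log (Nv v) else 0 := by
    intro l'
    unfold Dp
    rw [len_add]
    split_ifs
    · rw [len_single]
    · rw [len_zero]
  unfold tl
  simp only [h]
  rw [Finset.sum_add_distrib]
  simp

theorem Dp_apply_ne (D : Fin n → Idl K) (l : Fin n) (v : Pr K) (m : ℕ) {u : Pr K} (hu : u ≠ v)
    (i : Fin n) : Dp D l v m i u = D i u := by
  unfold Dp
  rw [Finsupp.add_apply]
  split_ifs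
  · rw [Finsupp.single_eq_of_ne hu, add_zero]
  · rw [Finsupp.zero_apply, add_zero]

theorem Dp_apply_self (D : Fin n → Idl K) (l : Fin n) (v : Pr K) (m : ℕ) (i : Fin n) :
    Dp D l v m i v = D i v + if i = l then m else 0 := by
  unfold Dp
  rw [Finsupp.add_apply]
  split_ifs
  · rw [Finsupp.single_eq_same]
  · rw [Finsupp.zero_apply]

theorem sp_Dp [DecidableEq (Pr K)] (D : Fin n → Idl K) (l : Fin n) (v : Pr K) (m : ℕ) :
    sp (Dp D l v m) ⊆ insert v (sp D) := by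
  intro u hu
  rw [mem_sp] at hu
  obtain ⟨i, hi⟩ := hu
  rw [Finset.mem_insert]
  by_cases h : u = v
  · exact Or.inl h
  · right
    rw [Dp_apply_ne D l v m h] at hi
    exact (mem_sp D u).2 ⟨i, hi⟩

theorem tr_Dp (D : Fin n → Idl K) (l : Fin n) (v : Pr K) (m : ℕ) :
    tr (Dp D l v m) ≤ tr D + Real.log (Nv v) := by
  classical
  unfold tr
  refine (Finset.sum_le_sum_of_subset_of_nonneg (sp_Dp D l v m)
    fun u _ _ => (log_Nv_pos u).le).trans ?_
  by_cases h : v ∈ sp D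
  · rw [Finset.insert_eq_of_mem h]
    linarith [log_Nv_pos v]
  · rw [Finset.sum_insert h]
    linarith

theorem rs_Dp (D : Fin n → Idl K) (l : Fin n) (v : Pr K) (m : ℕ) :
    rs (Dp D l v m) ≤ rs D + (Nv v)⁻¹ := by
  classical
  unfold rs
  refine (Finset.sum_le_sum_of_subset_of_nonneg (sp_Dp D l v m)
    fun u _ _ => (inv_pos.2 (Nv_pos u)).le).trans ?_
  by_cases h : v ∈ sp D
  · rw [Finset.insert_eq_of_mem h]
    linarith [inv_pos.2 (Nv_pos v)]
  · rw [Finset.sum_insert h]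
    linarith

theorem gl_Dp (D : Fin n → Idl K) (l : Fin n) (v : Pr K) (m : ℕ) :
    gl D + m * Real.log (Nv v) ≤ gl (Dp D l v (m + 1)) := by
  unfold gl
  rw [tl_Dp]
  have := tr_Dp D l v (m + 1)
  push_cast
  linarith

theorem Dp_le {D P : Fin n → Idl K} {l : Fin n} {v : Pr K} {m : ℕ} (h : ∀ l, D l ≤ P l)
    (hv : D l v + m ≤ P l v) (l' : Fin n) : Dp D l v m l' ≤ P l' := by
  unfold Dp
  split_ifs with hl
  · subst hl
    intro u
    rw [Finsupp.add_apply]
    by_cases hu : u = v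
    · subst hu
      rw [Finsupp.single_eq_same]
      exact hv
    · rw [Finsupp.single_eq_of_ne hu, add_zero]
      exact h l' u
  · rw [add_zero]
    exact h l'

theorem exp_tl_Dp (X : ℝ) (D : Fin n → Idl K) (l : Fin n) (v : Pr K) (m : ℕ) :
    Real.exp (2 * X - tl (Dp D l v m)) = Real.exp (2 * X - tl D) * ((Nv v) ^ m)⁻¹ := by
  rw [tl_Dp, ← sub_sub, Real.exp_sub _ (m * Real.log (Nv v)), Real.exp_nat_mul,
    Real.exp_log (Nv_pos v), div_eq_mul_inv]

/-! ### two blocks -/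

theorem ap_left (P : Fin q → Idl K) (Q : Fin r → Idl K) (i : Fin q) :
    ap P Q (Fin.castAdd r i) = P i := by
  unfold ap
  exact Fin.append_left _ _ _

theorem ap_right (P : Fin q → Idl K) (Q : Fin r → Idl K) (i : Fin r) :
    ap P Q (Fin.natAdd q i) = Q i := by
  unfold ap
  exact Fin.append_right _ _ _

theorem tl_ap (P : Fin q → Idl K) (Q : Fin r → Idl K) : tl (ap P Q) = tl P + tl Q := by
  unfold tl
  rw [Fin.sum_univ_add]
  simp only [ap_left, ap_right]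

theorem sum_ap (P : Fin q → Idl K) (Q : Fin r → Idl K) (v : Pr K) :
    ∑ i, ap P Q i v = ∑ i, P i v + ∑ i, Q i v := by
  rw [Fin.sum_univ_add]
  simp only [ap_left, ap_right]

theorem ap_le {P P' : Fin q → Idl K} {Q Q' : Fin r → Idl K} (hP : ∀ i, P i ≤ P' i)
    (hQ : ∀ i, Q i ≤ Q' i) (i : Fin (q + r)) : ap P Q i ≤ ap P' Q' i := by
  refine Fin.addCases (fun j => ?_) (fun j => ?_) i
  · rw [ap_left, ap_left]
    exact hP j
  · rw [ap_right, ap_right]
    exact hQ j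

theorem ap_Dp (P : Fin q → Idl K) (Q : Fin r → Idl K) (l : Fin q) (v : Pr K) (m : ℕ) :
    ap (Dp P l v m) Q = Dp (ap P Q) (Fin.castAdd r l) v m := by
  funext i
  refine Fin.addCases (fun j => ?_) (fun j => ?_) i
  · rw [ap_left]
    unfold Dp
    rw [ap_left]
    congr 1
    simp only [Fin.castAdd_inj]
  · rw [ap_right]
    unfold Dp
    rw [ap_right, if_neg, add_zero]
    intro h
    have h1 := congrArg Fin.val h
    simp only [Fin.val_natAdd, Fin.val_castAdd] at h1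
    omega

/-! ### the ideals of a point -/

theorem isP_unique {S : Finset (Pr K)} {α : Fin q → K × K} {x : K} {P P' : Fin q → Idl K}
    (h : IsP S α x P) (h' : IsP S α x P') : P = P' := by
  funext l
  ext v
  by_cases hv : v ∈ S
  · rw [h.1 l v hv, h'.1 l v hv]
  · have h1 := h.2 l v hv
    rw [h'.2 l v hv] at h1
    have h2 := mul_right_cancel₀ (log_Nv_pos v).ne' h1
    exact_mod_cast h2.symm

open Classical in
/-- the ideals of a point -/
noncomputable def pid (S : Finset (Pr K)) (α : Fin q → K × K) (x : K) : Fin q → Idl K :=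
  if h : ∃ P, IsP S α x P then h.choose else 0

theorem pid_spec {S : Finset (Pr K)} {α : Fin q → K × K} {x : K} (h : ∃ P, IsP S α x P) :
    IsP S α x (pid S α x) := by
  unfold pid
  rw [dif_pos h]
  exact h.choose_spec

/-- the facts about one of the two lines -/
structure Sd (S : Finset (Pr K)) (α : Fin q → K × K) (C c z : ℝ) : Prop where
  spec : ∀ x, Of α x → IsP S α x (pid S α x)
  cop : ∀ x, Of α x → ∀ l l', l ≠ l' → Cop (pid S α x l) (pid S α x l')
  up : ∀ x, Of α x → tl (pid S α x) ≤ q * hr (aff x) + C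
  cell : ∀ (X : ℝ) (D : Fin q → Idl K) (F : Finset K), 0 ≤ X →
    (∀ x ∈ F, Of α x ∧ hr (aff x) ≤ X ∧ ∀ l, D l ≤ pid S α x l) →
    (F.card : ℝ) ≤ C * (Real.exp (2 * X - tl D) + 1)
  low : ∀ (X : ℝ) (D : Fin q → Idl K), 0 ≤ X → (∀ l l', l ≠ l' → Cop (D l) (D l')) →
    (∀ l v, D l v ≠ 0 → v ∉ S ∧ z ≤ Nv v) → rs D ≤ c →
    ∃ F : Finset K, (∀ x ∈ F, Of α x ∧ hr (aff x) ≤ X ∧ ∀ l, D l ≤ pid S α x l) ∧
      c * Real.exp (2 * X - tl D) - C * Real.exp X ≤ F.card

theorem exists_Sd (h1 : S_BASQ K) (h2 : S_CELLQ K) (h3 : S_LOWQ K) (hq : 1 ≤ q)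
    (S : Finset (Pr K)) (α : Fin q → K × K) (hα : Al α) (hS : Gd S α) :
    ∃ C₀ c₀ z₀ : ℝ, 0 < c₀ ∧ ∀ C c z : ℝ, C₀ ≤ C → 0 < c → c ≤ c₀ → z₀ ≤ z → Sd S α C c z := by
  classical
  obtain ⟨Cb, hCb, hb⟩ := (h1 q α hq hα).2 S hS
  obtain ⟨Cc, hCc, hc⟩ := h2 q α S hα hS
  obtain ⟨c₁, c, Cl, z₀, hc₁, hc0, hCl, hl⟩ := h3 q α S hα hS
  refine ⟨max (Cb + q * ∑ v ∈ Spl S, loss v) (max Cc Cl), min c₁ c, z₀, lt_min hc₁ hc0, ?_⟩
  intro C c' z hC hc' hcc hz
  have hC1 : Cb + q * ∑ v ∈ Spl S, loss v ≤ C := (le_max_left _ _).trans hC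
  have hC2 : Cc ≤ C := ((le_max_left _ _).trans (le_max_right _ _)).trans hC
  have hC3 : Cl ≤ C := ((le_max_right _ _).trans (le_max_right _ _)).trans hC
  have hc1 : c' ≤ c₁ := hcc.trans (min_le_left _ _)
  have hc2 : c' ≤ c := hcc.trans (min_le_right _ _)
  have hsp : ∀ x, Of α x → IsP S α x (pid S α x) := fun x hx => pid_spec (hb x hx).1
  refine ⟨hsp, fun x hx => ((hb x hx).2.1 _ (hsp x hx)).1, ?_, ?_, ?_⟩
  · intro x hx
    have g1 := ((hb x hx).2.1 _ (hsp x hx)).2.1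
    have g2 : -(q * ∑ v ∈ Spl S, loss v) ≤ ∑ l, ∑ v ∈ Spl S, lam v (aff x) (α l) := by
      have g3 : ∀ l : Fin q, -∑ v ∈ Spl S, loss v ≤ ∑ v ∈ Spl S, lam v (aff x) (α l) := by
        intro l
        rw [← Finset.sum_neg_distrib]
        exact Finset.sum_le_sum fun v hv => ((hb x hx).2.2.1 v hv).1 l
      calc -(q * ∑ v ∈ Spl S, loss v) = ∑ _l : Fin q, -∑ v ∈ Spl S, loss v := by
            rw [Finset.sum_const, Finset.card_univ, Fintype.card_fin, nsmul_eq_mul]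
            ring
        _ ≤ _ := Finset.sum_le_sum fun l _ => g3 l
    have g4 := (abs_le.1 g1).1
    linarith
  · intro X D F hX hF
    rcases F.eq_empty_or_nonempty with rfl | ⟨x₀, hx₀⟩
    · simp only [Finset.card_empty, Nat.cast_zero]
      have : 0 ≤ C := hCc.le.trans hC2
      positivity
    · have g1 := hc X D (fun _ => ⟨0, hq⟩) (fun _ => 0) F hX (fun _ _ => le_rfl) ?_ ?_
      · refine g1.trans ?_
        simp only [Finset.sum_const_zero, sub_zero]
        gcongr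
      · intro l v hv
        have g2 := (hF x₀ hx₀).2.2 l v
        rw [(hsp x₀ (hF x₀ hx₀).1).1 l v hv] at g2
        omega
      · intro x hx
        obtain ⟨k1, k2, k3⟩ := hF x hx
        refine ⟨k1, k2, fun v hv => ?_, pid S α x, hsp x k1, k3⟩
        have := ((hb x k1).2.2.1 v hv).1 ⟨0, hq⟩
        linarith
  · intro X D hX hD1 hD2 hD3
    obtain ⟨F, hF, hFc⟩ := hl X D hX hD1 (fun l v h => ⟨(hD2 l v h).1, hz.trans (hD2 l v h).2⟩)
      (hD3.trans hc1)
    refine ⟨F, ?_, le_trans ?_ hFc⟩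
    · intro x hx
      obtain ⟨k1, k2, P, k3, k4⟩ := hF x hx
      refine ⟨k1, k2, ?_⟩
      rw [← isP_unique k3 (hsp x k1)]
      exact k4
    · have := Real.exp_pos (2 * X - tl D)
      have := Real.exp_pos X
      gcongr

/-! ### the pairs for a given tuple -/

theorem exists_of_sum {P : Fin n → Idl K} {v : Pr K} (hP : ∀ l l', l ≠ l' → Cop (P l) (P l'))
    {m : ℕ} (hm : 1 ≤ m) (h : m ≤ ∑ i, P i v) : ∃ l, m ≤ P l v := by
  obtain ⟨l, -, hl⟩ : ∃ l ∈ (Finset.univ : Finset (Fin n)), P l v ≠ 0 := by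
    apply Finset.exists_ne_zero_of_sum_ne_zero
    omega
  refine ⟨l, ?_⟩
  rwa [Finset.sum_eq_single l] at h
  · intro b _ hb
    rcases hP b l hb v with h1 | h1
    · exact h1
    · exact absurd h1 hl
  · intro h1
    exact absurd (Finset.mem_univ _) h1

theorem per {S : Finset (Pr K)} {α : Fin q → K × K} {β : Fin r → K × K} {C c z C₄ : ℝ}
    (hα : Sd S α C c z) (hβ : Sd S β C c z) (hC : 0 < C)
    (hc1 : ∀ (Y : ℝ) (s : Finset (Pr K)), 1 ≤ Y → (∀ v ∈ s, Nv v ≤ Y) → (s.card : ℝ) ≤ C₄ * Y)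
    (hc2 : ∀ (V : ℝ) (s : Finset (Pr K)), 1 ≤ V → (∀ v ∈ s, V < Nv v) →
      ∑ v ∈ s, ((Nv v) ^ 2)⁻¹ ≤ C₄ / V)
    {X V Y η : ℝ} (hX : 0 ≤ X) (hV : 1 ≤ V) (hY : 1 ≤ Y)
    (D₀ : Fin (q + r) → Idl K) (D : Fin q → Idl K) (E : Fin r → Idl K)
    (hDE : ∀ v, V < Nv v → ∀ i, ap D E i v = D₀ i v) (A B : Finset K)
    (hA : ∀ x ∈ A, Of α x ∧ hr (aff x) ≤ X ∧ ∀ l, D l ≤ pid S α x l)
    (hB : ∀ x ∈ B, Of β x ∧ hr (aff x) ≤ X ∧ ∀ l, E l ≤ pid S β x l)
    {WD WE : ℝ} (hWD : WD = Real.exp (2 * X - tl D)) (hWE : WE = Real.exp (2 * X - tl E))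
    (hD1 : 1 ≤ WD) (hE1 : 1 ≤ WE)
    (hrs : rs D₀ ≤ η) (hom1 : (om D₀ : ℝ) ≤ η * WD) (hom2 : (om D₀ : ℝ) ≤ η * WE)
    (hηV : C₄ / V ≤ η) (hηY1 : C₄ * Y ≤ η * WD) (hηY2 : C₄ * Y ≤ η * WE) :
    ∃ G ⊆ A ×ˢ B, (∀ p ∈ G, ∀ v, V < Nv v → Nv v ≤ Y →
      (v ∈ sp D₀ → ∀ i, ap (pid S α p.1) (pid S β p.2) i v = D₀ i v) ∧
      (v ∉ sp D₀ → ∑ i, ap (pid S α p.1) (pid S β p.2) i v ≤ 1)) ∧
      (A.card : ℝ) * B.card - η * C ^ 2 * (8 * q + 8 * r + 4 * (q * r)) * (WD * WE) ≤ G.card := by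
  classical
  have hη : 0 ≤ η := le_trans (Finset.sum_nonneg fun v _ => (inv_pos.2 (Nv_pos v)).le) hrs
  set G : Finset (K × K) := (A ×ˢ B).filter (fun p => ∀ v, V < Nv v → Nv v ≤ Y →
      (v ∈ sp D₀ → ∀ i, ap (pid S α p.1) (pid S β p.2) i v = D₀ i v) ∧
      (v ∉ sp D₀ → ∑ i, ap (pid S α p.1) (pid S β p.2) i v ≤ 1)) with hG
  set fA : Fin q → Pr K → ℕ → Finset K := fun l v m =>
    A.filter (fun x => ∀ l', Dp D l v m l' ≤ pid S α x l') with hfA
  set fB : Fin r → Pr K → ℕ → Finset K := fun l v m =>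
    B.filter (fun x => ∀ l', Dp E l v m l' ≤ pid S β x l') with hfB
  set s : Finset (Pr K) := ((A.biUnion fun x => sp (pid S α x)) ∪
    (B.biUnion fun x => sp (pid S β x))).filter (fun v => V < Nv v ∧ Nv v ≤ Y) with hs
  have hcA : (A.card : ℝ) ≤ 2 * C * WD := by
    have h := hα.cell X D A hX hA
    rw [← hWD] at h
    nlinarith
  have hcB : (B.card : ℝ) ≤ 2 * C * WE := by
    have h := hβ.cell X E B hX hB
    rw [← hWE] at h
    nlinarith
  have hfAc : ∀ l v m, ((fA l v m).card : ℝ) ≤ C * (WD * ((Nv v) ^ m)⁻¹ + 1) := by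
    intro l v m
    have h := hα.cell X (Dp D l v m) (fA l v m) hX (fun x hx => by
      have hx' := Finset.mem_filter.1 hx
      exact ⟨(hA x hx'.1).1, (hA x hx'.1).2.1, hx'.2⟩)
    rwa [exp_tl_Dp, ← hWD] at h
  have hfBc : ∀ l v m, ((fB l v m).card : ℝ) ≤ C * (WE * ((Nv v) ^ m)⁻¹ + 1) := by
    intro l v m
    have h := hβ.cell X (Dp E l v m) (fB l v m) hX (fun x hx => by
      have hx' := Finset.mem_filter.1 hx
      exact ⟨(hB x hx'.1).1, (hB x hx'.1).2.1, hx'.2⟩)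
    rwa [exp_tl_Dp, ← hWE] at h
  have hs2 : ∑ v ∈ s, ((Nv v) ^ 2)⁻¹ ≤ η :=
    (hc2 V s hV fun v hv => (Finset.mem_filter.1 hv).2.1).trans hηV
  have hs1 : (s.card : ℝ) ≤ C₄ * Y := hc1 Y s hY fun v hv => (Finset.mem_filter.1 hv).2.2
  have hinv1 : ∀ v : Pr K, (Nv v)⁻¹ ≤ 1 := fun v => inv_le_one_of_one_le₀ (Nv_one_lt v).le
  have hinv0 : ∀ v : Pr K, 0 ≤ (Nv v)⁻¹ := fun v => (inv_pos.2 (Nv_pos v)).le
  -- the sums
  have hS1 : ∀ l, ∑ v ∈ sp D₀, ((fA l v 1).card : ℝ) ≤ 2 * C * η * WD := by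
    intro l
    calc ∑ v ∈ sp D₀, ((fA l v 1).card : ℝ) ≤ ∑ v ∈ sp D₀, C * (WD * (Nv v)⁻¹ + 1) := by
          refine Finset.sum_le_sum fun v _ => ?_
          have := hfAc l v 1
          rwa [pow_one] at this
      _ = C * (WD * rs D₀ + om D₀) := by
          unfold rs om
          rw [← Finset.mul_sum, Finset.sum_add_distrib, ← Finset.mul_sum]
          simp
      _ ≤ C * (WD * η + η * WD) := by gcongr
      _ = _ := by ring
  have hS1' : ∀ l, ∑ v ∈ sp D₀, ((fB l v 1).card : ℝ) ≤ 2 * C * η * WE := by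
    intro l
    calc ∑ v ∈ sp D₀, ((fB l v 1).card : ℝ) ≤ ∑ v ∈ sp D₀, C * (WE * (Nv v)⁻¹ + 1) := by
          refine Finset.sum_le_sum fun v _ => ?_
          have := hfBc l v 1
          rwa [pow_one] at this
      _ = C * (WE * rs D₀ + om D₀) := by
          unfold rs om
          rw [← Finset.mul_sum, Finset.sum_add_distrib, ← Finset.mul_sum]
          simp
      _ ≤ C * (WE * η + η * WE) := by gcongr
      _ = _ := by ring
  have hS2 : ∀ l, ∑ v ∈ s, ((fA l v 2).card : ℝ) ≤ 2 * C * η * WD := by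
    intro l
    calc ∑ v ∈ s, ((fA l v 2).card : ℝ) ≤ ∑ v ∈ s, C * (WD * ((Nv v) ^ 2)⁻¹ + 1) :=
          Finset.sum_le_sum fun v _ => hfAc l v 2
      _ = C * (WD * ∑ v ∈ s, ((Nv v) ^ 2)⁻¹ + s.card) := by
          rw [← Finset.mul_sum, Finset.sum_add_distrib, ← Finset.mul_sum]
          simp
      _ ≤ C * (WD * η + η * WD) := by
          have := hs1.trans hηY1
          gcongr
      _ = _ := by ring
  have hS2' : ∀ l, ∑ v ∈ s, ((fB l v 2).card : ℝ) ≤ 2 * C * η * WE := by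
    intro l
    calc ∑ v ∈ s, ((fB l v 2).card : ℝ) ≤ ∑ v ∈ s, C * (WE * ((Nv v) ^ 2)⁻¹ + 1) :=
          Finset.sum_le_sum fun v _ => hfBc l v 2
      _ = C * (WE * ∑ v ∈ s, ((Nv v) ^ 2)⁻¹ + s.card) := by
          rw [← Finset.mul_sum, Finset.sum_add_distrib, ← Finset.mul_sum]
          simp
      _ ≤ C * (WE * η + η * WE) := by
          have := hs1.trans hηY2
          gcongr
      _ = _ := by ring
  have hS3 : ∀ l l', ∑ v ∈ s, ((fA l v 1).card : ℝ) * (fB l' v 1).card ≤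
      4 * C ^ 2 * η * (WD * WE) := by
    intro l l'
    calc ∑ v ∈ s, ((fA l v 1).card : ℝ) * (fB l' v 1).card
        ≤ ∑ v ∈ s, C ^ 2 * (WD * WE * ((Nv v) ^ 2)⁻¹ + (WD + WE + 1)) := by
          refine Finset.sum_le_sum fun v _ => ?_
          have g1 := hfAc l v 1
          have g2 := hfBc l' v 1
          rw [pow_one] at g1 g2
          have g3 := hinv0 v
          have g4 := hinv1 v
          have g5 : 0 ≤ WD * (Nv v)⁻¹ := mul_nonneg (by linarith) g3
          have g6 : 0 ≤ WE * (Nv v)⁻¹ := mul_nonneg (by linarith) g3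
          calc ((fA l v 1).card : ℝ) * (fB l' v 1).card
              ≤ (C * (WD * (Nv v)⁻¹ + 1)) * (C * (WE * (Nv v)⁻¹ + 1)) := by
                apply mul_le_mul g1 g2 (Nat.cast_nonneg _)
                positivity
            _ = C ^ 2 * (WD * WE * ((Nv v) ^ 2)⁻¹ + (WD * (Nv v)⁻¹ + WE * (Nv v)⁻¹ + 1)) := by
                rw [← inv_pow]
                ring
            _ ≤ _ := by
                have g7 : WD * (Nv v)⁻¹ ≤ WD := mul_le_of_le_one_right (by linarith) g4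
                have g8 : WE * (Nv v)⁻¹ ≤ WE := mul_le_of_le_one_right (by linarith) g4
                gcongr
      _ = C ^ 2 * (WD * WE * ∑ v ∈ s, ((Nv v) ^ 2)⁻¹ + (WD + WE + 1) * s.card) := by
          rw [← Finset.mul_sum, Finset.sum_add_distrib, ← Finset.mul_sum, Finset.sum_const,
            nsmul_eq_mul]
          ring
      _ ≤ C ^ 2 * (WD * WE * η + 3 * (η * (WD * WE))) := by
          have g1 := hs1.trans hηY1
          have g2 := hs1.trans hηY2
          have g3 : (WD + WE + 1) * (s.card : ℝ) ≤ 3 * (η * (WD * WE)) := by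
            have k1 : WD * (s.card : ℝ) ≤ WD * (η * WE) := by gcongr
            have k2 : WE * (s.card : ℝ) ≤ WE * (η * WD) := by gcongr
            have k3 : (s.card : ℝ) ≤ WE * (s.card : ℝ) :=
              le_mul_of_one_le_left (Nat.cast_nonneg _) hE1
            linarith
          gcongr
      _ = _ := by ring
  -- the bad pairs
  have hsub : (A ×ˢ B) \ G ⊆
      ((((Finset.univ.biUnion fun l => (sp D₀).biUnion fun v => (fA l v 1) ×ˢ B) ∪
      (Finset.univ.biUnion fun l => (sp D₀).biUnion fun v => A ×ˢ (fB l v 1))) ∪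
      ((Finset.univ.biUnion fun l => s.biUnion fun v => (fA l v 2) ×ˢ B) ∪
      (Finset.univ.biUnion fun l => s.biUnion fun v => A ×ˢ (fB l v 2)))) ∪
      (Finset.univ.biUnion fun l => Finset.univ.biUnion fun l' =>
        s.biUnion fun v => (fA l v 1) ×ˢ (fB l' v 1))) := by
    rintro ⟨x, y⟩ hp
    rw [Finset.mem_sdiff, hG, Finset.mem_filter] at hp
    obtain ⟨hxy, hp2⟩ := hp
    obtain ⟨hx, hy⟩ := Finset.mem_product.1 hxy
    simp only at hx hy
    have hp3 : ¬ ∀ v, V < Nv v → Nv v ≤ Y →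
      (v ∈ sp D₀ → ∀ i, ap (pid S α x) (pid S β y) i v = D₀ i v) ∧
      (v ∉ sp D₀ → ∑ i, ap (pid S α x) (pid S β y) i v ≤ 1) := fun h => hp2 ⟨hxy, h⟩
    push Not at hp3
    obtain ⟨v, hv1, hv2, hv3⟩ := hp3
    obtain ⟨hOx, hHx, hDx⟩ := hA x hx
    obtain ⟨hOy, hHy, hEy⟩ := hB y hy
    simp only [Finset.mem_union, Finset.mem_biUnion, Finset.mem_univ, true_and,
      Finset.mem_product]
    by_cases hv : v ∈ sp D₀
    · left
      left
      have hv4 : ¬ ∀ i, ap (pid S α x) (pid S β y) i v = D₀ i v := by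
        intro h
        exact absurd (hv3 fun _ => h).1 (not_not.2 hv)
      push Not at hv4
      obtain ⟨i, hi⟩ := hv4
      rw [← hDE v hv1 i] at hi
      revert hi
      refine Fin.addCases (fun j hj => ?_) (fun j hj => ?_) i
      · left
        rw [ap_left, ap_left] at hj
        have h1 := hDx j v
        refine ⟨j, v, hv, ?_, hy⟩
        rw [hfA, Finset.mem_filter]
        exact ⟨hx, Dp_le hDx (by omega)⟩
      · right
        rw [ap_right, ap_right] at hj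
        have h1 := hEy j v
        refine ⟨j, v, hv, hx, ?_⟩
        rw [hfB, Finset.mem_filter]
        exact ⟨hy, Dp_le hEy (by omega)⟩
    · have hv4 : 2 ≤ ∑ i, ap (pid S α x) (pid S β y) i v := (hv3 fun h => absurd h hv).2
      have hD0 : ∀ l, D l v = 0 := by
        intro l
        have h1 := hDE v hv1 (Fin.castAdd r l)
        rw [ap_left] at h1
        rw [h1]
        by_contra h
        exact hv ((mem_sp D₀ v).2 ⟨_, h⟩)
      have hE0 : ∀ l, E l v = 0 := by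
        intro l
        have h1 := hDE v hv1 (Fin.natAdd q l)
        rw [ap_right] at h1
        rw [h1]
        by_contra h
        exact hv ((mem_sp D₀ v).2 ⟨_, h⟩)
      rw [sum_ap] at hv4
      have hvsA : ∀ l, pid S α x l v ≠ 0 → v ∈ s := by
        intro l hl
        rw [hs, Finset.mem_filter, Finset.mem_union, Finset.mem_biUnion]
        exact ⟨Or.inl ⟨x, hx, (mem_sp _ v).2 ⟨l, hl⟩⟩, hv1, hv2⟩
      have hvsB : ∀ l, pid S β y l v ≠ 0 → v ∈ s := by
        intro l hl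
        rw [hs, Finset.mem_filter, Finset.mem_union, Finset.mem_biUnion, Finset.mem_biUnion]
        exact ⟨Or.inr ⟨y, hy, (mem_sp _ v).2 ⟨l, hl⟩⟩, hv1, hv2⟩
      by_cases k1 : 2 ≤ ∑ i, pid S α x i v
      · obtain ⟨l, hl⟩ := exists_of_sum (hα.cop x hOx) (by norm_num) k1
        left
        right
        left
        refine ⟨l, v, hvsA l (by omega), ?_, hy⟩
        rw [hfA, Finset.mem_filter]
        exact ⟨hx, Dp_le hDx (by rw [hD0]; omega)⟩
      · by_cases k2 : 2 ≤ ∑ i, pid S β y i v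
        · obtain ⟨l, hl⟩ := exists_of_sum (hβ.cop y hOy) (by norm_num) k2
          left
          right
          right
          refine ⟨l, v, hvsB l (by omega), hx, ?_⟩
          rw [hfB, Finset.mem_filter]
          exact ⟨hy, Dp_le hEy (by rw [hE0]; omega)⟩
        · right
          have k3 : 1 ≤ ∑ i, pid S α x i v := by omega
          have k4 : 1 ≤ ∑ i, pid S β y i v := by omega
          obtain ⟨l, hl⟩ := exists_of_sum (hα.cop x hOx) le_rfl k3
          obtain ⟨l', hl'⟩ := exists_of_sum (hβ.cop y hOy) le_rfl k4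
          refine ⟨l, l', v, hvsA l (by omega), ?_, ?_⟩
          · rw [hfA, Finset.mem_filter]
            exact ⟨hx, Dp_le hDx (by rw [hD0]; omega)⟩
          · rw [hfB, Finset.mem_filter]
            exact ⟨hy, Dp_le hEy (by rw [hE0]; omega)⟩
  have hc : (((A ×ˢ B) \ G).card : ℝ) ≤ η * C ^ 2 * (8 * q + 8 * r + 4 * (q * r)) * (WD * WE) := by
    have h1 : ((A ×ˢ B) \ G).card ≤ ((∑ l, ∑ v ∈ sp D₀, (fA l v 1).card * B.card +
        ∑ l, ∑ v ∈ sp D₀, A.card * (fB l v 1).card) +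
        (∑ l, ∑ v ∈ s, (fA l v 2).card * B.card + ∑ l, ∑ v ∈ s, A.card * (fB l v 2).card)) +
        ∑ l, ∑ l', ∑ v ∈ s, (fA l v 1).card * (fB l' v 1).card := by
      refine (Finset.card_le_card hsub).trans ((Finset.card_union_le _ _).trans (add_le_add ?_ ?_))
      · refine (Finset.card_union_le _ _).trans (add_le_add ?_ ?_)
        · refine (Finset.card_union_le _ _).trans (add_le_add ?_ ?_)
          · refine Finset.card_biUnion_le.trans (Finset.sum_le_sum fun l _ =>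
              Finset.card_biUnion_le.trans (Finset.sum_le_sum fun v _ => ?_))
            rw [Finset.card_product]
          · refine Finset.card_biUnion_le.trans (Finset.sum_le_sum fun l _ =>
              Finset.card_biUnion_le.trans (Finset.sum_le_sum fun v _ => ?_))
            rw [Finset.card_product]
        · refine (Finset.card_union_le _ _).trans (add_le_add ?_ ?_)
          · refine Finset.card_biUnion_le.trans (Finset.sum_le_sum fun l _ =>
              Finset.card_biUnion_le.trans (Finset.sum_le_sum fun v _ => ?_))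
            rw [Finset.card_product]
          · refine Finset.card_biUnion_le.trans (Finset.sum_le_sum fun l _ =>
              Finset.card_biUnion_le.trans (Finset.sum_le_sum fun v _ => ?_))
            rw [Finset.card_product]
      · refine Finset.card_biUnion_le.trans (Finset.sum_le_sum fun l _ =>
          Finset.card_biUnion_le.trans (Finset.sum_le_sum fun l' _ =>
          Finset.card_biUnion_le.trans (Finset.sum_le_sum fun v _ => ?_)))
        rw [Finset.card_product]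
    have h2 : (((A ×ˢ B) \ G).card : ℝ) ≤
        ((∑ l, (∑ v ∈ sp D₀, ((fA l v 1).card : ℝ)) * B.card +
        ∑ l, (A.card : ℝ) * ∑ v ∈ sp D₀, ((fB l v 1).card : ℝ)) +
        (∑ l, (∑ v ∈ s, ((fA l v 2).card : ℝ)) * B.card +
        ∑ l, (A.card : ℝ) * ∑ v ∈ s, ((fB l v 2).card : ℝ))) +
        ∑ l, ∑ l', ∑ v ∈ s, ((fA l v 1).card : ℝ) * (fB l' v 1).card := by
      simp only [Finset.sum_mul, Finset.mul_sum]
      exact_mod_cast h1
    refine h2.trans ?_
    have a1 : ∑ l, (∑ v ∈ sp D₀, ((fA l v 1).card : ℝ)) * B.card ≤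
        ∑ _l : Fin q, (2 * C * η * WD) * (2 * C * WE) := by
      refine Finset.sum_le_sum fun l _ => mul_le_mul (hS1 l) hcB (Nat.cast_nonneg _) ?_
      have : 0 ≤ WD := by linarith
      positivity
    have a2 : ∑ l, (A.card : ℝ) * ∑ v ∈ sp D₀, ((fB l v 1).card : ℝ) ≤
        ∑ _l : Fin r, (2 * C * WD) * (2 * C * η * WE) := by
      refine Finset.sum_le_sum fun l _ => mul_le_mul hcA (hS1' l)
        (Finset.sum_nonneg fun _ _ => Nat.cast_nonneg _) ?_
      have : 0 ≤ WD := by linarith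
      positivity
    have a3 : ∑ l, (∑ v ∈ s, ((fA l v 2).card : ℝ)) * B.card ≤
        ∑ _l : Fin q, (2 * C * η * WD) * (2 * C * WE) := by
      refine Finset.sum_le_sum fun l _ => mul_le_mul (hS2 l) hcB (Nat.cast_nonneg _) ?_
      have : 0 ≤ WD := by linarith
      positivity
    have a4 : ∑ l, (A.card : ℝ) * ∑ v ∈ s, ((fB l v 2).card : ℝ) ≤
        ∑ _l : Fin r, (2 * C * WD) * (2 * C * η * WE) := by
      refine Finset.sum_le_sum fun l _ => mul_le_mul hcA (hS2' l)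
        (Finset.sum_nonneg fun _ _ => Nat.cast_nonneg _) ?_
      have : 0 ≤ WD := by linarith
      positivity
    have a5 : ∑ l, ∑ l', ∑ v ∈ s, ((fA l v 1).card : ℝ) * (fB l' v 1).card ≤
        ∑ _l : Fin q, ∑ _l' : Fin r, 4 * C ^ 2 * η * (WD * WE) :=
      Finset.sum_le_sum fun l _ => Finset.sum_le_sum fun l' _ => hS3 l l'
    simp only [Finset.sum_const, Finset.card_univ, Fintype.card_fin, nsmul_eq_mul] at a1 a2 a3 a4 a5
    refine (add_le_add (add_le_add (add_le_add a1 a2) (add_le_add a3 a4)) a5).trans (le_of_eq ?_)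
    ring
  refine ⟨G, Finset.filter_subset _ _, fun p hp => (Finset.mem_filter.1 hp).2, ?_⟩
  have h1 : ((A ×ˢ B).card : ℝ) = ((A ×ˢ B) \ G).card + G.card := by
    have := Finset.card_sdiff_add_card_eq_card (Finset.filter_subset (fun p : K × K =>
      ∀ v, V < Nv v → Nv v ≤ Y →
      (v ∈ sp D₀ → ∀ i, ap (pid S α p.1) (pid S β p.2) i v = D₀ i v) ∧
      (v ∉ sp D₀ → ∑ i, ap (pid S α p.1) (pid S β p.2) i v ≤ 1)) (A ×ˢ B))
    exact_mod_cast this.symm
  rw [Finset.card_product] at h1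
  push_cast at h1
  rw [h1]
  linarith

/-! ### the main terms -/

theorem cst_pos {r t : ℕ} (ht : 1 ≤ t) (hr : 1 ≤ r) : 0 < cst r t := by
  unfold cst
  have h1 : (0 : ℝ) < r := by exact_mod_cast hr
  have h2 : (0 : ℝ) < t := by exact_mod_cast ht
  positivity

/-- large primes -/
theorem exists_prime (h4 : S_WINK K) {Δ : Finset (Finset (Fin n))} {r t : ℕ} (hΔ : Cx Δ r t)
    (B : ℝ) : ∃ v : Pr K, B < Nv v := by
  classical
  obtain ⟨Z₀, hZ₀, h⟩ := h4 n Δ r t (1 / 2) 1 hΔ (by norm_num) (by norm_num) one_pos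
  by_contra hno
  push Not at hno
  obtain ⟨F, hF, hs⟩ := h (max Z₀ (B ^ 2)) (le_max_left _ _)
  have hZ1 : 1 < max Z₀ (B ^ 2) := lt_max_of_lt_left hZ₀
  have hsq : B ≤ √(max Z₀ (B ^ 2)) := Real.le_sqrt_of_sq_le (le_max_right _ _)
  have hzero : ∀ D ∈ F, D = 0 := by
    intro D hD
    funext l
    ext v
    by_contra hv
    have h1 := (hF D hD).2.2.1 v ((mem_sp D v).2 ⟨l, hv⟩)
    have h2 := hno v
    linarith
  have h1 : ∑ D ∈ F, Real.exp (-tr D) ≤ 1 := by
    refine (Finset.sum_le_sum_of_subset_of_nonneg (t := {0}) (fun D hD => ?_)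
      (fun D _ _ => (Real.exp_pos _).le)).trans ?_
    · rw [Finset.mem_singleton]
      exact hzero D hD
    · rw [Finset.sum_singleton]
      rw [Real.exp_le_one_iff]
      have := tr_nonneg (K := K) (0 : Fin n → Idl K)
      linarith
  have h2 : 1 < Real.exp ((1 - 1 / 2) * cst r t * (max Z₀ (B ^ 2) /
      Real.log (max Z₀ (B ^ 2))) ^ ((r : ℝ) / (r + 1))) := by
    rw [Real.one_lt_exp_iff]
    have h4 := Real.log_pos hZ1
    have h5 : 0 < max Z₀ (B ^ 2) / Real.log (max Z₀ (B ^ 2)) := by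
      apply div_pos _ h4
      linarith
    have h6 := cst_pos hΔ.2.1 hΔ.1
    have h7 := Real.rpow_pos_of_pos h5 ((r : ℝ) / (r + 1))
    positivity
  linarith

/-- the comparison of the main terms -/
theorem cmp {κ ε ε' c a : ℝ} (b : ℝ) (hκ0 : 0 < κ) (hκ1 : κ < 1 / 3) (ha : 0 ≤ a) (hc : 0 < c)
    (hε : ε' < ε) (hε' : ε' < 1) : ∀ᶠ X : ℝ in atTop,
    b + (1 - ε) * c * (2 * κ * X / Real.log X) ^ ((2 : ℝ) / 3) ≤
      (1 - ε') * c * ((2 * κ * X + a) / Real.log (2 * κ * X + a)) ^ ((2 : ℝ) / 3) := by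
  obtain ⟨y₀, hy₀⟩ := Filter.eventually_atTop.1
    ((tendsto_rpow_atTop (show (0 : ℝ) < 2 / 3 by norm_num)).eventually_ge_atTop
      (b / ((ε - ε') * c)))
  set M := max y₀ 1 with hM
  have hM1 : 1 ≤ M := le_max_right _ _
  have hlog := Real.isLittleO_log_id_atTop.def (c := 2 * κ / M) (by positivity)
  have t1 : Tendsto (fun X : ℝ => 2 * κ * X) atTop atTop :=
    tendsto_id.const_mul_atTop (by linarith)
  have e1 := t1.eventually_ge_atTop (2 : ℝ)
  have e3 := (tendsto_id.const_mul_atTop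
    (by linarith : (0 : ℝ) < 1 - 2 * κ)).eventually_ge_atTop a
  filter_upwards [hlog, e1, e3, eventually_gt_atTop (1 : ℝ)] with X h1 h2 h4 h5
  have hX0 : 0 < X := by linarith
  have hlX : 0 < Real.log X := Real.log_pos h5
  have hZX : 2 * κ * X + a ≤ X := by
    have : (1 - 2 * κ) * X ≥ a := h4
    linarith
  have hlZ : 0 < Real.log (2 * κ * X + a) := Real.log_pos (by linarith)
  have hllZ : Real.log (2 * κ * X + a) ≤ Real.log X := Real.log_le_log (by linarith) hZX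
  have hYM : M ≤ 2 * κ * X / Real.log X := by
    rw [le_div_iff₀ hlX]
    rw [Real.norm_of_nonneg hlX.le, id, Real.norm_of_nonneg hX0.le] at h1
    calc M * Real.log X ≤ M * (2 * κ / M * X) := by gcongr
      _ = 2 * κ * X := by field_simp
  have hY := hy₀ _ ((le_max_left _ _).trans hYM)
  set Y := (2 * κ * X / Real.log X) ^ ((2 : ℝ) / 3) with hYdef
  have hY0 : 0 ≤ Y := Real.rpow_nonneg (by linarith) _
  have hmain : Y ≤ ((2 * κ * X + a) / Real.log (2 * κ * X + a)) ^ ((2 : ℝ) / 3) := by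
    apply Real.rpow_le_rpow (by linarith) _ (by norm_num)
    calc 2 * κ * X / Real.log X ≤ (2 * κ * X + a) / Real.log X := by gcongr; linarith
      _ ≤ (2 * κ * X + a) / Real.log (2 * κ * X + a) := by gcongr
  have hb : b ≤ (ε - ε') * c * Y := by
    rw [div_le_iff₀ (mul_pos (by linarith) hc)] at hY
    linarith
  have h7 : (1 - ε') * c * Y ≤ (1 - ε') * c *
      ((2 * κ * X + a) / Real.log (2 * κ * X + a)) ^ ((2 : ℝ) / 3) := by
    apply mul_le_mul_of_nonneg_left hmain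
    exact mul_nonneg (by linarith) hc.le
  linarith

/-- The lower bound. -/
theorem logr (K : Type) [Field K] [NumberField K] (h0 : S_CXG) (h1 : S_BASQ K) (h2 : S_CELLQ K)
    (h3 : S_LOWQ K) (h4 : S_WINK K) : S_LOG K := by
  classical
  obtain ⟨C₄, hC₄, hc1, hc2⟩ := Pool.Agent.N803.RS.cnt K
  intro q r α β S κ ε C₀ hq hr' hα hβ hSα hSβ hκ0 hκ1 hε0 hε1 hC₀
  have hCx := h0 q r hq hr'
  obtain ⟨Cα, cα, zα, hcα, hSdα⟩ := exists_Sd h1 h2 h3 hq S α hα hSα
  obtain ⟨Cβ, cβ, zβ, hcβ, hSdβ⟩ := exists_Sd h1 h2 h3 hr' S β hβ hSβ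
  obtain ⟨C, hC, hCα, hCβ⟩ : ∃ C : ℝ, 0 < C ∧ Cα ≤ C ∧ Cβ ≤ C :=
    ⟨max (max Cα Cβ) 1, lt_max_of_lt_right one_pos, (le_max_left _ _).trans (le_max_left _ _),
      (le_max_right _ _).trans (le_max_left _ _)⟩
  obtain ⟨c, hc, hcα', hcβ'⟩ : ∃ c : ℝ, 0 < c ∧ c ≤ cα ∧ c ≤ cβ :=
    ⟨min cα cβ, lt_min hcα hcβ, min_le_left _ _, min_le_right _ _⟩
  obtain ⟨z, hzα, hzβ⟩ : ∃ z : ℝ, zα ≤ z ∧ zβ ≤ z := ⟨max zα zβ, le_max_left _ _, le_max_right _ _⟩
  have hA := hSdα C c z hCα hc hcα' hzα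
  have hB := hSdβ C c z hCβ hc hcβ' hzβ
  have hq0 : (0 : ℝ) < q := by exact_mod_cast hq
  have hr0 : (0 : ℝ) < r := by exact_mod_cast hr'
  obtain ⟨k, hk, hkd⟩ : ∃ k : ℝ, 0 < k ∧ (8 * q + 8 * r + 4 * (q * r) : ℝ) = k :=
    ⟨_, by positivity, rfl⟩
  obtain ⟨η, hη, hηk⟩ : ∃ η : ℝ, 0 < η ∧ η * C ^ 2 * k = c ^ 2 / 8 :=
    ⟨c ^ 2 / (8 * C ^ 2 * k), by positivity, by field_simp⟩
  obtain ⟨ε', hε'0, hε'1, hε'2⟩ : ∃ ε' : ℝ, 0 < ε' ∧ ε' < ε ∧ ε' ≤ 1 / 4 :=
    ⟨min (ε / 2) (1 / 4), lt_min (by linarith) (by norm_num),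
      lt_of_le_of_lt (min_le_left _ _) (by linarith), min_le_right _ _⟩
  obtain ⟨cw, hcw0, hcw1, hcw2⟩ : ∃ cw : ℝ, 0 < cw ∧ cw ≤ c / 2 ∧ cw ≤ η :=
    ⟨min (c / 2) η, lt_min (by linarith) hη, min_le_left _ _, min_le_right _ _⟩
  obtain ⟨Z₀, hZ₀, hwin⟩ := h4 (q + r) (Gc q r) 2 (q * r) ε' cw hCx hε'0 (by linarith) hcw0
  obtain ⟨𝔮, h𝔮⟩ := exists_prime h4 hCx (max (max (2 / c) z) (∑ v ∈ S, Nv v))
  have h𝔮c : (Nv 𝔮)⁻¹ ≤ c / 2 := by
    have g1 : 2 / c < Nv 𝔮 := lt_of_le_of_lt ((le_max_left _ _).trans (le_max_left _ _)) h𝔮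
    rw [inv_le_comm₀ (Nv_pos 𝔮) (by positivity), inv_div]
    exact g1.le
  have h𝔮z : z < Nv 𝔮 := lt_of_le_of_lt ((le_max_right _ _).trans (le_max_left _ _)) h𝔮
  have h𝔮S : ∀ v ∈ S, Nv v < Nv 𝔮 := by
    intro v hv
    refine lt_of_le_of_lt ?_ (lt_of_le_of_lt (le_max_right _ _) h𝔮)
    exact Finset.single_le_sum (f := fun v => Nv v) (fun u _ => (Nv_pos u).le) hv
  have hlq := log_Nv_pos 𝔮
  set lq := Real.log (Nv 𝔮) with hlqd
  obtain ⟨a, ha, had⟩ : ∃ a : ℝ, 0 ≤ a ∧ 2 * C + C₀ = a := ⟨_, by positivity, rfl⟩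
  obtain ⟨M, hM1, hM2, hM3, hM4⟩ : ∃ M : ℝ, 1 ≤ M ∧ 2 / η ≤ M ∧ C₄ / η ≤ M ∧ 2 * C / c ≤ M := by
    have g1 : 0 < 2 / η := by positivity
    have g2 : 0 < C₄ / η := by positivity
    have g3 : 0 < 2 * C / c := by positivity
    exact ⟨2 / η + C₄ / η + 2 * C / c + 1, by linarith, by linarith, by linarith, by linarith⟩
  have hM0 : 0 < M := by linarith
  obtain ⟨V₀, hV1, hVq, hVc⟩ : ∃ V₀ : ℝ, 1 ≤ V₀ ∧ Nv 𝔮 ≤ V₀ ∧ C₄ / η ≤ V₀ :=
    ⟨max (max 1 (Nv 𝔮)) (C₄ / η), (le_max_left _ _).trans (le_max_left _ _),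
      (le_max_right _ _).trans (le_max_left _ _), le_max_right _ _⟩
  have hcst : 0 < cst 2 (q * r) := cst_pos (Nat.mul_pos hq hr') (by norm_num)
  have t1 : Tendsto (fun X : ℝ => 2 * κ * X) atTop atTop :=
    tendsto_id.const_mul_atTop (by linarith)
  have e1 := t1.eventually_ge_atTop (Z₀ - a)
  have e2 := t1.eventually_ge_atTop (V₀ ^ 2 - a)
  have t2 : Tendsto (fun X : ℝ => (1 - 2 * κ) * X) atTop atTop :=
    tendsto_id.const_mul_atTop (by linarith : (0 : ℝ) < 1 - 2 * κ)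
  have e3 := t2.eventually_ge_atTop a
  have e4 := eventually_ge_atTop (6 * (5 / 4 * a + 2 * lq + Real.log M))
  have e5 := cmp (a + 2 * lq - Real.log (c ^ 2 / 8)) hκ0 hκ1 ha hcst hε'1 (by linarith : ε' < 1)
  have hev := e1.and (e2.and (e3.and (e4.and (e5.and (eventually_ge_atTop (1 : ℝ))))))
  obtain ⟨X₀, hX₀⟩ := Filter.eventually_atTop.1 hev
  refine ⟨max X₀ 2, lt_max_of_lt_right (by norm_num), fun X hX => ?_⟩
  obtain ⟨f1, f2, f3, f4, f5, f6⟩ := hX₀ X ((le_max_left _ _).trans hX)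
  set Z := 2 * κ * X + a with hZ
  have hZZ : Z₀ ≤ Z := by linarith
  have hZX : Z ≤ X := by linarith
  have hZ0 : 0 ≤ Z := by
    have : 0 ≤ 2 * κ * X := by positivity
    linarith
  have hVZ : V₀ ≤ √Z := by
    apply Real.le_sqrt_of_sq_le
    linarith
  obtain ⟨Y, hYd⟩ : ∃ Y : ℝ, Y = Real.exp (ε' * Z) := ⟨_, rfl⟩
  have hY1 : 1 ≤ Y := by
    rw [hYd]
    exact Real.one_le_exp (mul_nonneg hε'0.le hZ0)
  have hYX : Y ≤ Real.exp X := by
    rw [hYd, Real.exp_le_exp]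
    nlinarith
  obtain ⟨F, hF, hFs⟩ := hwin Z hZZ
  have hbig : ∀ v : Pr K, √Z < Nv v → v ∉ S ∧ z ≤ Nv v ∧ v ≠ 𝔮 := by
    intro v hv
    have g1 : Nv 𝔮 < Nv v := lt_of_le_of_lt (hVq.trans hVZ) hv
    refine ⟨fun h => ?_, by linarith, ?_⟩
    · have := h𝔮S v h
      linarith
    · rintro rfl
      exact lt_irrefl _ g1
  -- the pairs for one tuple
  have hG : ∀ D₀ : Fin (q + r) → Idl K, ∃ G : Finset (K × K), D₀ ∈ F →
      (∀ p ∈ G, (Of α p.1 ∧ Of β p.2 ∧ hr (aff p.1) ≤ X ∧ hr (aff p.2) ≤ X ∧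
        tr (ap (pid S α p.1) (pid S β p.2)) + C₀ ≤
          ((q : ℝ) - κ) * hr (aff p.1) + ((r : ℝ) - κ) * hr (aff p.2)) ∧
        ∀ v, √Z < Nv v → Nv v ≤ Y →
          (v ∈ sp D₀ → ∀ i, ap (pid S α p.1) (pid S β p.2) i v = D₀ i v) ∧
          (v ∉ sp D₀ → ∑ i, ap (pid S α p.1) (pid S β p.2) i v ≤ 1)) ∧
      c ^ 2 / 8 * Real.exp ((4 - 2 * κ) * X - a - 2 * lq - tr D₀) ≤ G.card := by
    intro D₀
    by_cases hD : D₀ ∈ F
    swap
    · exact ⟨∅, fun h => absurd h hD⟩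
    obtain ⟨hTp, hSq, hsp, hgl, htr, hrs⟩ := hF D₀ hD
    -- the exponent of `𝔮`
    obtain ⟨j, hj1, hj2⟩ : ∃ j : ℕ, Z ≤ gl D₀ + j * lq ∧ gl D₀ + j * lq ≤ Z + lq := by
      refine ⟨⌈(Z - gl D₀) / lq⌉₊, ?_⟩
      have h6 : 0 ≤ (Z - gl D₀) / lq := by
        apply div_nonneg _ hlq.le
        linarith
      have h7 := Nat.le_ceil ((Z - gl D₀) / lq)
      have h8 := (Nat.ceil_lt_add_one h6).le
      rw [div_le_iff₀ hlq] at h7
      have h9 : (⌈(Z - gl D₀) / lq⌉₊ : ℝ) * lq ≤ ((Z - gl D₀) / lq + 1) * lq := by gcongr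
      rw [add_mul, one_mul, div_mul_cancel₀ _ hlq.ne'] at h9
      constructor <;> linarith
    obtain ⟨D, hDd⟩ : ∃ D : Fin q → Idl K, ∀ l, D l = D₀ (Fin.castAdd r l) := ⟨_, fun _ => rfl⟩
    obtain ⟨E, hEd⟩ : ∃ E : Fin r → Idl K, ∀ l, E l = D₀ (Fin.natAdd q l) := ⟨_, fun _ => rfl⟩
    have hDE : ap D E = D₀ := by
      funext i
      refine Fin.addCases (fun l => ?_) (fun l => ?_) i
      · rw [ap_left, hDd]
      · rw [ap_right, hEd]
    obtain ⟨l₀, -⟩ : ∃ l₀ : Fin q, True := ⟨⟨0, hq⟩, trivial⟩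
    obtain ⟨D', hD'⟩ : ∃ D' : Fin q → Idl K, D' = Dp D l₀ 𝔮 (j + 1) := ⟨_, rfl⟩
    have h𝔮0 : ∀ i, D₀ i 𝔮 = 0 := by
      intro i
      by_contra h
      exact (hbig 𝔮 (hsp 𝔮 ((mem_sp D₀ 𝔮).2 ⟨i, h⟩))).2.2 rfl
    have hDE' : ∀ v, √Z < Nv v → ∀ i, ap D' E i v = D₀ i v := by
      intro v hv i
      rw [hD', ap_Dp, Dp_apply_ne _ _ _ _ (hbig v hv).2.2, hDE]
    have hD'0 : ∀ l v, v ≠ 𝔮 → D' l v = D l v := by
      intro l v hv
      rw [hD', Dp_apply_ne _ _ _ _ hv]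
    have hcopD : ∀ l l', l ≠ l' → Cop (D' l) (D' l') := by
      intro l l' hl v
      by_cases hv : v = 𝔮
      · subst hv
        rw [hD', Dp_apply_self, Dp_apply_self, hDd, hDd, h𝔮0, h𝔮0]
        by_cases h : l = l₀
        · right
          rw [if_neg]
          intro h'
          exact hl (h.trans h'.symm)
        · left
          rw [if_neg h]
      · rw [hD'0 l v hv, hD'0 l' v hv, hDd, hDd]
        by_contra hcon
        push Not at hcon
        have g1 := (Finset.mem_filter.1 (hTp v)).2.1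
        rw [Finset.card_le_one] at g1
        have g2 := g1 (Fin.castAdd r l) (by simp [hcon.1]) (Fin.castAdd r l') (by simp [hcon.2])
        exact hl (Fin.castAdd_injective q r g2)
    have hcopE : ∀ l l', l ≠ l' → Cop (E l) (E l') := by
      intro l l' hl v
      rw [hEd, hEd]
      by_contra hcon
      push Not at hcon
      have g1 := (Finset.mem_filter.1 (hTp v)).2.2
      rw [Finset.card_le_one] at g1
      have g2 := g1 (Fin.natAdd q l) (by simp [hcon.1]) (Fin.natAdd q l') (by simp [hcon.2])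
      exact hl (Fin.natAdd_injective r q g2)
    have hspD : sp D ⊆ sp D₀ := by
      intro v hv
      obtain ⟨l, hl⟩ := (mem_sp D v).1 hv
      rw [hDd] at hl
      exact (mem_sp D₀ v).2 ⟨_, hl⟩
    have hspE : sp E ⊆ sp D₀ := by
      intro v hv
      obtain ⟨l, hl⟩ := (mem_sp E v).1 hv
      rw [hEd] at hl
      exact (mem_sp D₀ v).2 ⟨_, hl⟩
    have hD'z : ∀ l v, D' l v ≠ 0 → v ∉ S ∧ z ≤ Nv v := by
      intro l v hl
      by_cases hv : v = 𝔮
      · rw [hv]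
        exact ⟨fun h => lt_irrefl _ (h𝔮S 𝔮 h), h𝔮z.le⟩
      · rw [hD'0 l v hv] at hl
        have := hbig v (hsp v (hspD ((mem_sp D v).2 ⟨l, hl⟩)))
        exact ⟨this.1, this.2.1⟩
    have hEz : ∀ l v, E l v ≠ 0 → v ∉ S ∧ z ≤ Nv v := by
      intro l v hl
      have := hbig v (hsp v (hspE ((mem_sp E v).2 ⟨l, hl⟩)))
      exact ⟨this.1, this.2.1⟩
    have hrsD : rs D' ≤ c := by
      have g1 : rs D ≤ rs D₀ := Finset.sum_le_sum_of_subset_of_nonneg hspD
        fun u _ _ => (inv_pos.2 (Nv_pos u)).le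
      have g2 := rs_Dp D l₀ 𝔮 (j + 1)
      rw [hD']
      linarith
    have hrsE : rs E ≤ c := by
      have g1 : rs E ≤ rs D₀ := Finset.sum_le_sum_of_subset_of_nonneg hspE
        fun u _ _ => (inv_pos.2 (Nv_pos u)).le
      linarith
    have htl : tl D' + tl E = gl D₀ + tr D₀ + (j + 1) * lq := by
      have g1 : tl D + tl E = tl D₀ := by rw [← tl_ap, hDE]
      have g2 : gl D₀ = tl D₀ - tr D₀ := rfl
      rw [hD', tl_Dp]
      push_cast
      linarith
    have htl2 : tl D' + tl E ≤ 2 * κ * X + a + 2 * lq + tr D₀ := by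
      rw [htl]
      linarith
    have hX0 : 0 ≤ X := by linarith
    have htl3 : tl D' + tl E ≤ X - Real.log M := by
      have g1 : ε' * Z ≤ 1 / 4 * Z := by gcongr
      have g2 : 2 * κ * X ≤ 2 / 3 * X := by nlinarith
      linarith
    have htD0 := tl_nonneg D'
    have htE0 := tl_nonneg E
    obtain ⟨WD, hWD⟩ : ∃ WD : ℝ, WD = Real.exp (2 * X - tl D') := ⟨_, rfl⟩
    obtain ⟨WE, hWE⟩ : ∃ WE : ℝ, WE = Real.exp (2 * X - tl E) := ⟨_, rfl⟩
    have hWDM : M * Real.exp X ≤ WD := by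
      rw [hWD, ← Real.exp_log hM0, ← Real.exp_add, Real.exp_le_exp]
      linarith
    have hWEM : M * Real.exp X ≤ WE := by
      rw [hWE, ← Real.exp_log hM0, ← Real.exp_add, Real.exp_le_exp]
      linarith
    have heX : 1 ≤ Real.exp X := Real.one_le_exp hX0
    have hMe : Real.exp X ≤ M * Real.exp X := le_mul_of_one_le_left (by linarith) hM1
    -- consequences of the size of `M`
    have key : ∀ W : ℝ, M * Real.exp X ≤ W →
        2 * Real.exp X ≤ η * W ∧ C₄ * Real.exp X ≤ η * W ∧ C * Real.exp X ≤ c / 2 * W := by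
      intro W hW
      have g0 := Real.exp_pos X
      rw [div_le_iff₀ hη] at hM2 hM3
      rw [div_le_iff₀ hc] at hM4
      refine ⟨?_, ?_, ?_⟩
      · calc 2 * Real.exp X ≤ M * η * Real.exp X := by gcongr
          _ = η * (M * Real.exp X) := by ring
          _ ≤ η * W := by gcongr
      · calc C₄ * Real.exp X ≤ M * η * Real.exp X := by gcongr
          _ = η * (M * Real.exp X) := by ring
          _ ≤ η * W := by gcongr
      · calc C * Real.exp X = (2 * C) * Real.exp X / 2 := by ring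
          _ ≤ (M * c) * Real.exp X / 2 := by gcongr
          _ = c / 2 * (M * Real.exp X) := by ring
          _ ≤ c / 2 * W := by gcongr
    have hom : (om D₀ : ℝ) ≤ 2 * Real.exp X := by
      have g1 := om_le D₀
      have g2 : (1 : ℝ) / 2 ≤ Real.log 2 := by
        have := Real.log_two_gt_d9
        linarith
      have g3 : X ≤ Real.exp X := by
        have := Real.add_one_le_exp X
        linarith
      have g4 : (0 : ℝ) ≤ om D₀ := Nat.cast_nonneg _
      have g5 : tr D₀ ≤ X := by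
        have g6 : ε' * Z ≤ 1 * Z := by
          apply mul_le_mul_of_nonneg_right _ hZ0
          linarith
        linarith
      nlinarith
    obtain ⟨kD1, kD2, kD3⟩ := key WD hWDM
    obtain ⟨kE1, kE2, kE3⟩ := key WE hWEM
    obtain ⟨A, hAf, hAc⟩ := hA.low X D' hX0 hcopD hD'z hrsD
    obtain ⟨B, hBf, hBc⟩ := hB.low X E hX0 hcopE hEz hrsE
    rw [← hWD] at hAc
    rw [← hWE] at hBc
    have hC₄Y : C₄ * Y ≤ C₄ * Real.exp X := by gcongr
    obtain ⟨G, hGs, hG1, hG2⟩ := per (V := √Z) (Y := Y) (η := η) hA hB hC hc1 hc2 hX0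
      (hV1.trans hVZ) hY1 D₀ D' E hDE' A B hAf hBf hWD hWE (by linarith) (by linarith)
      (hrs.trans hcw2) (hom.trans kD1) (hom.trans kE1) (by
        have g1 : 0 < √Z := lt_of_lt_of_le (by linarith) hVZ
        rw [div_le_iff₀ g1]
        have g2 := hVc.trans hVZ
        rw [div_le_iff₀ hη] at g2
        linarith) (hC₄Y.trans kD2) (hC₄Y.trans kE2)
    refine ⟨G, fun _ => ⟨fun p hp => ⟨?_, hG1 p hp⟩, ?_⟩⟩
    · obtain ⟨hpA, hpB⟩ := Finset.mem_product.1 (hGs hp)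
      obtain ⟨k1, k2, k3⟩ := hAf p.1 hpA
      obtain ⟨k4, k5, k6⟩ := hBf p.2 hpB
      refine ⟨k1, k4, k2, k5, ?_⟩
      have g1 : Z ≤ gl (ap (pid S α p.1) (pid S β p.2)) := by
        refine le_trans ?_ (gl_mono (ap_le k3 k6))
        rw [hD', ap_Dp, hDE]
        exact hj1.trans (gl_Dp D₀ _ 𝔮 j)
      have g2 : gl (ap (pid S α p.1) (pid S β p.2)) = tl (pid S α p.1) + tl (pid S β p.2) -
          tr (ap (pid S α p.1) (pid S β p.2)) := by
        rw [← tl_ap]
        rfl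
      have g3 := hA.up p.1 k1
      have g4 := hB.up p.2 k4
      have g5 : κ * hr (aff p.1) ≤ κ * X := by gcongr
      have g6 : κ * hr (aff p.2) ≤ κ * X := by gcongr
      rw [sub_mul, sub_mul]
      linarith
    · have hprod : c / 2 * WD * (c / 2 * WE) ≤ (A.card : ℝ) * B.card := by
        apply mul_le_mul
        · linarith
        · linarith
        · have : 0 ≤ WE := by linarith
          positivity
        · positivity
      rw [hkd, hηk] at hG2
      have hlow : c ^ 2 / 8 * (WD * WE) ≤ G.card := by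
        have e6 : c / 2 * WD * (c / 2 * WE) = c ^ 2 / 4 * (WD * WE) := by ring
        linarith
      refine le_trans ?_ hlow
      have g1 : Real.exp ((4 - 2 * κ) * X - a - 2 * lq - tr D₀) ≤ WD * WE := by
        rw [hWD, hWE, ← Real.exp_add, Real.exp_le_exp]
        linarith
      gcongr
  choose G hG using hG
  refine ⟨F.biUnion G, ?_, ?_⟩
  · intro p hp
    obtain ⟨D₀, hD₀, hpD⟩ := Finset.mem_biUnion.1 hp
    obtain ⟨⟨g1, g2, g3, g4, g5⟩, -⟩ := (hG D₀ hD₀).1 p hpD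
    exact ⟨g1, g2, g3, g4, _, _, hA.spec _ g1, hB.spec _ g2, g5⟩
  · have hupY : ∀ D₀ ∈ F, ∀ v ∈ sp D₀, √Z < Nv v ∧ Nv v ≤ Y := by
      intro D₀ hD₀ v hv
      obtain ⟨-, -, hsp, -, htr, -⟩ := hF D₀ hD₀
      refine ⟨hsp v hv, ?_⟩
      rw [hYd, ← Real.log_le_iff_le_exp (Nv_pos v)]
      refine le_trans ?_ htr
      exact Finset.single_le_sum (f := fun v => Real.log (Nv v))
        (fun u _ => (log_Nv_pos u).le) hv
    have hsq2 : ∀ D₀ ∈ F, ∀ v ∈ sp D₀, 2 ≤ ∑ i, D₀ i v := by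
      intro D₀ hD₀ v hv
      have g1 := (hF D₀ hD₀).2.1 v
      obtain ⟨i, hi⟩ := (mem_sp D₀ v).1 hv
      have g2 : D₀ i v ≤ ∑ i, D₀ i v :=
        Finset.single_le_sum (f := fun i => D₀ i v) (fun _ _ => Nat.zero_le _) (Finset.mem_univ i)
      omega
    have hdisj : ∀ D₀ ∈ F, ∀ D₁ ∈ F, D₀ ≠ D₁ → Disjoint (G D₀) (G D₁) := by
      intro D₀ hD₀ D₁ hD₁ hne
      rw [Finset.disjoint_left]
      intro p hp hp'
      apply hne
      have h5 := ((hG D₀ hD₀).1 p hp).2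
      have h6 := ((hG D₁ hD₁).1 p hp').2
      funext i
      ext v
      have hz : ∀ D₂ : Fin (q + r) → Idl K, v ∉ sp D₂ → D₂ i v = 0 := by
        intro D₂ h
        by_contra h'
        exact h ((mem_sp D₂ v).2 ⟨i, h'⟩)
      by_cases k0 : v ∈ sp D₀
      · obtain ⟨k1, k2⟩ := hupY D₀ hD₀ v k0
        have k3 := (h5 v k1 k2).1 k0
        by_cases k4 : v ∈ sp D₁
        · have k5 := (h6 v k1 k2).1 k4
          rw [← k3 i, ← k5 i]
        · have k5 := (h6 v k1 k2).2 k4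
          have k6 := hsq2 D₀ hD₀ v k0
          simp only [k3] at k5
          omega
      · by_cases k4 : v ∈ sp D₁
        · obtain ⟨k1, k2⟩ := hupY D₁ hD₁ v k4
          have k3 := (h6 v k1 k2).1 k4
          have k5 := (h5 v k1 k2).2 k0
          have k6 := hsq2 D₁ hD₁ v k4
          simp only [k3] at k5
          omega
        · rw [hz D₀ k0, hz D₁ k4]
    have hcard : ((F.biUnion G).card : ℝ) = ∑ D₀ ∈ F, ((G D₀).card : ℝ) := by
      rw [Finset.card_biUnion hdisj]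
      push_cast
      rfl
    rw [hcard]
    have g1 : c ^ 2 / 8 * Real.exp ((4 - 2 * κ) * X - a - 2 * lq) * ∑ D₀ ∈ F, Real.exp (-tr D₀) ≤
        ∑ D₀ ∈ F, ((G D₀).card : ℝ) := by
      rw [Finset.mul_sum]
      refine Finset.sum_le_sum fun D₀ hD₀ => le_trans (le_of_eq ?_) (hG D₀ hD₀).2
      rw [mul_assoc, ← Real.exp_add]
      rfl
    refine le_trans ?_ g1
    have hexp : ((2 : ℕ) : ℝ) / (((2 : ℕ) : ℝ) + 1) = (2 : ℝ) / 3 := by norm_num
    rw [hexp] at hFs
    have g2 : c ^ 2 / 8 * Real.exp ((4 - 2 * κ) * X - a - 2 * lq) *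
        Real.exp ((1 - ε') * cst 2 (q * r) * (Z / Real.log Z) ^ ((2 : ℝ) / 3)) ≤
        c ^ 2 / 8 * Real.exp ((4 - 2 * κ) * X - a - 2 * lq) * ∑ D₀ ∈ F, Real.exp (-tr D₀) := by
      gcongr
    refine le_trans ?_ g2
    have g3 : c ^ 2 / 8 = Real.exp (Real.log (c ^ 2 / 8)) := (Real.exp_log (by positivity)).symm
    rw [g3, ← Real.exp_add, ← Real.exp_add, Real.exp_le_exp]
    linarith

end Pool.Agent.N499.KG
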