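import Pool.Agent.N580.AU.Stm3

/-!
# AU/HOL3: interpolation between the exponents `2 / 3` and `19 / 20`, and numbers

The Hoelder lemma is the one of helper907 (Pool.Agent.N907.AU_HOL).
-/

set_option autoImplicit false

namespace Pool.Agent.N499.AU

open Finset
open Pool.Agent.N580.AU (HOL3)

/-- Hoelder's inequality for sums of powers -/
theorem hoelder {I : Type} [Fintype I] (m : I → ℝ) (hm : ∀ i, 0 ≤ m i) {A B lam α β γ : ℝ}
    (hA : 0 < A) (hB : 0 < B) (h0 : 0 ≤ lam) (h1 : lam ≤ 1)
    (hγ : γ = α * lam + β * (1 - lam)) (hγ0 : 0 < γ)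
    (hsA : ∑ i, m i ^ α ≤ A) (hsB : ∑ i, m i ^ β ≤ B) :
    ∑ i, m i ^ γ ≤ A ^ lam * B ^ (1 - lam) := by
  have hP : 0 < A ^ lam * B ^ (1 - lam) := by positivity
  have key : ∀ i, m i ^ γ ≤ A ^ lam * B ^ (1 - lam) *
      (lam * (m i ^ α / A) + (1 - lam) * (m i ^ β / B)) := by
    intro i
    have hg := Real.geom_mean_le_arith_mean2_weighted h0 (sub_nonneg.2 h1)
      (div_nonneg (Real.rpow_nonneg (hm i) α) hA.le) (div_nonneg (Real.rpow_nonneg (hm i) β) hB.le)
      (by ring)
    have he : m i ^ γ = A ^ lam * B ^ (1 - lam) *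
        ((m i ^ α / A) ^ lam * (m i ^ β / B) ^ (1 - lam)) := by
      rw [Real.div_rpow (Real.rpow_nonneg (hm i) α) hA.le,
        Real.div_rpow (Real.rpow_nonneg (hm i) β) hB.le,
        ← Real.rpow_mul (hm i), ← Real.rpow_mul (hm i), hγ]
      rw [Real.rpow_add' (hm i) (by rw [← hγ]; exact hγ0.ne')]
      have a0 : A ^ lam ≠ 0 := (Real.rpow_pos_of_pos hA _).ne'
      have b0 : B ^ (1 - lam) ≠ 0 := (Real.rpow_pos_of_pos hB _).ne'
      field_simp
    rw [he]
    exact mul_le_mul_of_nonneg_left hg hP.le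
  calc ∑ i, m i ^ γ ≤ ∑ i, A ^ lam * B ^ (1 - lam) *
      (lam * (m i ^ α / A) + (1 - lam) * (m i ^ β / B)) := sum_le_sum fun i _ => key i
    _ = A ^ lam * B ^ (1 - lam) *
      (lam * ((∑ i, m i ^ α) / A) + (1 - lam) * ((∑ i, m i ^ β) / B)) := by
        rw [← mul_sum, sum_add_distrib, ← mul_sum, ← mul_sum, sum_div, sum_div]
    _ ≤ A ^ lam * B ^ (1 - lam) * (lam * 1 + (1 - lam) * 1) := by
        have h2 : (∑ i, m i ^ α) / A ≤ 1 := (div_le_one hA).2 hsA
        have h3 : (∑ i, m i ^ β) / B ≤ 1 := (div_le_one hB).2 hsB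
        have h4 : 0 ≤ 1 - lam := sub_nonneg.2 h1
        gcongr
    _ = A ^ lam * B ^ (1 - lam) := by ring

theorem log180 : Real.log (90 * 2) ≤ 5.5452 := by
  have h2 : Real.log (90 * 2) ≤ 8 * Real.log 2 := by
    have h3 : (8 : ℝ) * Real.log 2 = Real.log (2 ^ 8) := by
      rw [Real.log_pow]
      norm_num
    rw [h3]
    exact Real.log_le_log (by norm_num) (by norm_num)
  have h4 := Real.log_two_lt_d9
  refine h2.trans ?_
  linarith

/-- the part AU/HOL3 -/
theorem hol3 : HOL3 := by
  intro I _ m G k r T F ω hm hG hT hF hω hω' hB hA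
  rcases eq_or_lt_of_le hω with h | h
  · subst h
    refine hB.trans ?_
    have h1 : Real.exp (-(r : ℝ) / 18) ≤ 1 := by
      rw [Real.exp_le_one_iff]
      have : (0 : ℝ) ≤ r := Nat.cast_nonneg _
      linarith
    nlinarith
  · have hT0 : (0 : ℝ) < T := by exact_mod_cast hT
    have hF0 : (0 : ℝ) < F := by exact_mod_cast hF
    set lT := Real.log (T : ℝ) with hlT
    set lF := Real.log (F : ℝ) with hlF
    have hlT0 : 0 ≤ lT := Real.log_nonneg (by exact_mod_cast hT)
    have hlF0 : 0 ≤ lF := Real.log_nonneg (by exact_mod_cast hF)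
    have hk0 : (0 : ℝ) ≤ k := Nat.cast_nonneg _
    have hr : 0 < r := by
      rcases Nat.eq_zero_or_pos r with h0 | h0
      · exfalso
        rw [h0] at hω'
        norm_num at hω'
        linarith
      · exact h0
    have hr0 : (0 : ℝ) < r := by exact_mod_cast hr
    set κ : ℝ := k + lT + lF with hκ
    have hκ0 : 0 ≤ κ := by positivity
    set lam : ℝ := (ω - 2) * (20 / 17) with hlam
    have hlam0 : 0 < lam := by
      rw [hlam]
      nlinarith
    have hD : 0 < 2 * (r : ℝ) + 360 * κ := by positivity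
    have hle : lam * (2 * r + 360 * κ) ≤ 20 / 17 * r := by
      have h1 : ω - 2 ≤ r / (2 * r + 360 * κ) := by linarith
      have h3 := (le_div_iff₀ hD).1 h1
      rw [hlam]
      nlinarith
    have hlam1 : lam ≤ 1 := by
      have h1 : lam * (2 * r) ≤ lam * (2 * r + 360 * κ) :=
        mul_le_mul_of_nonneg_left (by linarith) hlam0.le
      have h2 : lam * r ≤ 1 * r := by linarith
      exact le_of_mul_le_mul_right h2 hr0
    have hA0 : 0 < (F : ℝ) ^ 3 * ((T : ℝ) ^ 3 * (G * (90 * 2) ^ (3 * k))) := by positivity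
    have hB0 : 0 < Real.exp (-(r : ℝ) / 18) * G := by positivity
    have hH := hoelder m hm hA0 hB0 hlam0.le hlam1
      (by rw [hlam]; ring : ω / 3 = (19 / 20 : ℝ) * lam + 2 / 3 * (1 - lam)) (by linarith) hA hB
    refine hH.trans ?_
    rw [Real.rpow_def_of_pos hA0, Real.rpow_def_of_pos hB0, ← Real.exp_add,
      Real.log_mul (by positivity) (by positivity), Real.log_mul (by positivity) (by positivity),
      Real.log_mul hG.ne' (by positivity), Real.log_pow, Real.log_pow, Real.log_pow,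
      Real.log_mul (Real.exp_pos _).ne' hG.ne', Real.log_exp]
    rw [← Real.le_log_iff_exp_le hG, ← hlT, ← hlF]
    push_cast
    have hC := log180
    have e0 : 3 * lF + (3 * lT + 3 * k * Real.log (90 * 2)) ≤ 16.6356 * κ := by
      have h1 : 3 * (k : ℝ) * Real.log (90 * 2) ≤ 3 * k * 5.5452 :=
        mul_le_mul_of_nonneg_left hC (by positivity)
      rw [hκ]
      linarith
    have e1 : lam * (3 * lF + (3 * lT + 3 * k * Real.log (90 * 2))) ≤ lam * (16.6356 * κ) :=
      mul_le_mul_of_nonneg_left e0 hlam0.le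
    have e2 : lam * (16.6356 * κ + r / 18) ≤ r / 18 := by
      have h1 : lam * (16.6356 * κ + r / 18) * (2 * r + 360 * κ) ≤
          r / 18 * (2 * r + 360 * κ) := by
        have h2 : lam * (16.6356 * κ + r / 18) * (2 * r + 360 * κ) =
            lam * (2 * r + 360 * κ) * (16.6356 * κ + r / 18) := by ring
        rw [h2]
        have h3 : lam * (2 * r + 360 * κ) * (16.6356 * κ + r / 18) ≤
            20 / 17 * r * (16.6356 * κ + r / 18) :=
          mul_le_mul_of_nonneg_right hle (by positivity)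
        have h4 : 0 ≤ (r : ℝ) * κ := by positivity
        have h5 : 0 ≤ (r : ℝ) * r := by positivity
        nlinarith
      exact le_of_mul_le_mul_right h1 hD
    nlinarith

end Pool.Agent.N499.AU
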