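import Pool.Agent.N943.RC.Stm

/-!
# RC/P1: the epsilon-net theorem for Bernoulli samples (double sampling)
-/

set_option autoImplicit false

namespace Pool.Agent.N499.RCNet

open Finset Pool.Agent.R980 N943.RC
open scoped Classical

section

variable {E : Type} [Fintype E]

lemma bex_coord (q : ℝ) (a : E) (h : Bool → ℝ) :
    bex q (fun y : E → Bool => h (y a)) = q * h true + (1 - q) * h false := by
  have h1 : (fun y : E → Bool => h (y a)) = fun y => ∏ e : E,
      (fun (e : E) (b : Bool) => if e = a then h b else 1) e (y e) := by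
    funext y
    simp
  have h3 := bex_prod q (fun (e : E) (b : Bool) => if e = a then h b else (1 : ℝ))
  rw [h1]
  refine h3.trans ?_
  have h2 : ∀ e : E, (q * (if e = a then h true else 1) + (1 - q) * (if e = a then h false else 1))
      = if e = a then q * h true + (1 - q) * h false else 1 := by
    intro e
    split_ifs <;> ring
  simp_rw [h2]
  simp

/-- centred count -/
noncomputable def cc (q : ℝ) (S : Finset E) (y : E → Bool) : ℝ :=
  ∑ e ∈ S, ((if y e = true then (1 : ℝ) else 0) - q)

/-- number of elements of `S` which are in the sample -/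
noncomputable def cnt (S : Finset E) (y : E → Bool) : ℕ := (S.filter fun e => y e = true).card

lemma cnt_eq (q : ℝ) (S : Finset E) (y : E → Bool) :
    (cnt S y : ℝ) = cc q S y + q * S.card := by
  unfold cnt cc
  rw [sum_sub_distrib, sum_const, nsmul_eq_mul, Finset.card_filter]
  push_cast
  ring

lemma bex_cc_sq (q : ℝ) (S : Finset E) :
    bex q (fun y : E → Bool => cc q S y ^ 2) = S.card * (q * (1 - q)) := by
  induction S using Finset.induction_on with
  | empty => simp [cc, bex_const]
  | insert a S ha ih =>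
    have h1 : (fun y : E → Bool => cc q (insert a S) y ^ 2) = fun y : E → Bool =>
        ((if y a = true then (1 : ℝ) else 0) - q) ^ 2 +
        (2 * (((if y a = true then (1 : ℝ) else 0) - q) * cc q S y) + cc q S y ^ 2) := by
      funext y
      unfold cc
      rw [sum_insert ha]
      ring
    have h2 : bex q (fun y : E → Bool => ((if y a = true then (1 : ℝ) else 0) - q) ^ 2) =
        q * (1 - q) := by
      rw [bex_coord q a (fun b => ((if b = true then (1 : ℝ) else 0) - q) ^ 2)]
      simp
      ring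
    have h3 : bex q (fun y : E → Bool => ((if y a = true then (1 : ℝ) else 0) - q)) = 0 := by
      rw [bex_coord q a (fun b => ((if b = true then (1 : ℝ) else 0) - q))]
      simp
      ring
    have h4 : bex q (fun y : E → Bool =>
        ((if y a = true then (1 : ℝ) else 0) - q) * cc q S y) = 0 := by
      rw [bex_block q (fun e => e = a) (fun y : E → Bool => ((if y a = true then (1 : ℝ) else 0) - q))
        (fun y => cc q S y), h3, zero_mul]
      · intro x y hxy
        simp only [hxy a rfl]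
      · intro x y hxy
        unfold cc
        refine sum_congr rfl fun e he => ?_
        rw [hxy e (fun h => ha (h ▸ he))]
    rw [h1, bex_add, bex_add, bex_mul, h2, h4, ih, card_insert_of_notMem ha]
    push_cast
    ring

/-- Chebyshev -/
lemma cheb {q : ℝ} (h0 : 0 ≤ q) (h1 : q ≤ 1) (S : Finset E) {t : ℝ} (ht : 0 < t)
    (A : (E → Bool) → Prop) (hA : ∀ y, A y → t ≤ |cc q S y|) :
    bex q (fun y : E → Bool => if A y then 1 else 0) ≤ q * S.card / t ^ 2 := by
  have h2 : bex q (fun y : E → Bool => if A y then 1 else 0) ≤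
      bex q (fun y : E → Bool => 1 / t ^ 2 * cc q S y ^ 2) := by
    refine bex_mono h0 h1 fun y => ?_
    split_ifs with h
    · have h3 := hA y h
      have h4 : t ^ 2 ≤ cc q S y ^ 2 := by
        rw [← sq_abs (cc q S y)]
        exact pow_le_pow_left₀ ht.le h3 2
      rw [one_div, inv_mul_eq_div, le_div_iff₀ (by positivity)]
      linarith
    · positivity
  refine h2.trans ?_
  rw [bex_mul, bex_cc_sq, one_div, inv_mul_eq_div]
  apply div_le_div_of_nonneg_right _ (by positivity)
  have : (0 : ℝ) ≤ S.card := Nat.cast_nonneg _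
  have h5 : q * (1 - q) ≤ q := by nlinarith
  calc (S.card : ℝ) * (q * (1 - q)) ≤ S.card * q := mul_le_mul_of_nonneg_left h5 this
    _ = q * S.card := by ring

lemma half {q θ : ℝ} (h0 : 0 < q) (h1 : q ≤ 1) (hθ : 8 ≤ q * θ) (Z : Finset E)
    (hZ : θ ≤ (Z.card : ℝ)) :
    1 ≤ 2 * bex q (fun y : E → Bool => if q * θ / 2 ≤ (cnt Z y : ℝ) then 1 else 0) := by
  have hμ : q * θ ≤ q * Z.card := mul_le_mul_of_nonneg_left hZ h0.le
  obtain ⟨A, hA⟩ : ∃ A : (E → Bool) → Prop, ∀ y, A y ↔ (cnt Z y : ℝ) < q * θ / 2 :=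
    ⟨fun y => (cnt Z y : ℝ) < q * θ / 2, fun _ => Iff.rfl⟩
  have h2 := cheb h0.le h1 Z (t := q * Z.card / 2) (by linarith) A (by
      intro y hy
      rw [hA, cnt_eq q] at hy
      rw [le_abs]
      right
      linarith)
  have h3 : q * Z.card / (q * Z.card / 2) ^ 2 ≤ 1 / 2 := by
    have h4 : (0 : ℝ) < q * Z.card := by linarith
    rw [div_le_iff₀ (by positivity)]
    nlinarith
  have h4 : bex q (fun y : E → Bool => (if q * θ / 2 ≤ (cnt Z y : ℝ) then (1 : ℝ) else 0) +
      (if A y then (1 : ℝ) else 0)) = 1 := by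
    have : (fun y : E → Bool => (if q * θ / 2 ≤ (cnt Z y : ℝ) then (1 : ℝ) else 0) +
      (if A y then (1 : ℝ) else 0)) = fun _ => 1 := by
      funext y
      by_cases h : q * θ / 2 ≤ (cnt Z y : ℝ)
      · rw [if_pos h, if_neg (fun h' => absurd h (not_le.2 ((hA y).1 h'))), add_zero]
      · rw [if_neg h, if_pos ((hA y).2 (not_le.1 h)), zero_add]
    rw [this, bex_const]
  rw [bex_add] at h4
  linarith

lemma big {q : ℝ} (h0 : 0 < q) (h1 : q ≤ 1) (hN : 0 < Fintype.card E) :
    bex q (fun y : E → Bool => if 2 * q * Fintype.card E < (cnt (univ : Finset E) y : ℝ)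
      then 1 else 0) ≤ 1 / (q * Fintype.card E) := by
  have hN' : (0 : ℝ) < Fintype.card E := by exact_mod_cast hN
  have h2 := cheb h0.le h1 (univ : Finset E) (t := q * Fintype.card E) (by positivity)
    (fun y => 2 * q * Fintype.card E < (cnt (univ : Finset E) y : ℝ)) (by
      intro y hy
      rw [cnt_eq q, card_univ] at hy
      rw [le_abs]
      left
      linarith)
  refine h2.trans (le_of_eq ?_)
  rw [card_univ]
  field_simp

/-! ### swaps -/

/-- exchange the two samples at the places where `σ` is true -/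
def sw (σ : E → Bool) (u : (E → Bool) × (E → Bool)) : (E → Bool) × (E → Bool) :=
  (fun e => if σ e = true then u.2 e else u.1 e, fun e => if σ e = true then u.1 e else u.2 e)

lemma sw_sw (σ : E → Bool) (u : (E → Bool) × (E → Bool)) : sw σ (sw σ u) = u := by
  unfold sw
  ext e
  · by_cases h : σ e = true <;> simp [h]
  · by_cases h : σ e = true <;> simp [h]

/-- as an equivalence -/
def swE (σ : E → Bool) : ((E → Bool) × (E → Bool)) ≃ ((E → Bool) × (E → Bool)) :=
  ⟨sw σ, sw σ, sw_sw σ, sw_sw σ⟩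

/-- weight of a pair -/
noncomputable def w2 (q : ℝ) (u : (E → Bool) × (E → Bool)) : ℝ := bw q u.1 * bw q u.2

lemma w2_sw (q : ℝ) (σ : E → Bool) (u : (E → Bool) × (E → Bool)) : w2 q (sw σ u) = w2 q u := by
  unfold w2 bw sw
  rw [← prod_mul_distrib, ← prod_mul_distrib]
  refine prod_congr rfl fun e _ => ?_
  by_cases h : σ e = true <;> simp [h, mul_comm]

lemma w2_nonneg {q : ℝ} (h0 : 0 ≤ q) (h1 : q ≤ 1) (u : (E → Bool) × (E → Bool)) : 0 ≤ w2 q u :=
  mul_nonneg (bw_nonneg h0 h1 _) (bw_nonneg h0 h1 _)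

lemma w2_bex (q : ℝ) (G : (E → Bool) → (E → Bool) → ℝ) :
    ∑ u : (E → Bool) × (E → Bool), w2 q u * G u.1 u.2 = bex q (fun x => bex q (fun y => G x y)) := by
  rw [Fintype.sum_prod_type]
  unfold bex w2
  refine sum_congr rfl fun x _ => ?_
  rw [mul_sum]
  refine sum_congr rfl fun y _ => ?_
  ring

lemma w2_sum (q : ℝ) : ∑ u : (E → Bool) × (E → Bool), w2 q u = 1 := by
  have h := w2_bex (E := E) q (fun _ _ => 1)
  simp only [mul_one, bex_const] at h
  exact h

/-- the union of the two samples -/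
noncomputable def un (u : (E → Bool) × (E → Bool)) : Finset E :=
  univ.filter fun e => u.1 e = true ∨ u.2 e = true

lemma un_sw (σ : E → Bool) (u : (E → Bool) × (E → Bool)) : un (sw σ u) = un u := by
  unfold un sw
  refine filter_congr fun e _ => ?_
  by_cases h : σ e = true
  · simp [h, or_comm]
  · simp [h]

/-- the event of the second sampling -/
def E2 (F : Set (Finset E)) (q θ : ℝ) (u : (E → Bool) × (E → Bool)) : Prop :=
  ∃ Z ∈ F, θ ≤ (Z.card : ℝ) ∧ (∀ e ∈ Z, u.1 e = false) ∧ q * θ / 2 ≤ (cnt Z u.2 : ℝ)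

lemma card_agree (T : Finset E) (x : E → Bool) :
    (univ.filter fun σ : E → Bool => ∀ e ∈ T, σ e = x e).card = 2 ^ (Fintype.card E - T.card) := by
  have h1 : (univ.filter fun σ : E → Bool => ∀ e ∈ T, σ e = x e) =
      Fintype.piFinset (fun e : E => if e ∈ T then ({x e} : Finset Bool) else univ) := by
    ext σ
    simp only [mem_filter, mem_univ, true_and, Fintype.mem_piFinset]
    constructor
    · intro h e
      by_cases he : e ∈ T
      · simp [he, h e he]
      · simp [he]
    · intro h e he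
      have := h e
      simpa [he] using this
  rw [h1, Fintype.card_piFinset]
  have h2 : ∀ e : E, (if e ∈ T then ({x e} : Finset Bool) else univ).card =
      if e ∈ T then 1 else 2 := by
    intro e
    split_ifs <;> simp
  simp_rw [h2]
  rw [Finset.prod_ite, prod_const_one, one_mul, prod_const]
  congr 1
  have h3 := Finset.card_filter_add_card_filter_not (s := (univ : Finset E)) (fun e => e ∈ T)
  rw [card_univ] at h3
  have h4 : (univ.filter fun e : E => e ∈ T) = T := by ext; simp
  rw [h4] at h3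
  omega

/-- for a fixed pair of samples few swaps are in the event -/
lemma few {F : Set (Finset E)} {q θ : ℝ} {m P : ℕ}
    (hP : ∀ X : Finset E, X.card ≤ m → ((fun Z => Z ∩ X) '' F).ncard ≤ P)
    (u : (E → Bool) × (E → Bool)) :
    ∑ σ : E → Bool, (if E2 F q θ (sw σ u) ∧ (un (sw σ u)).card ≤ m then (1 : ℝ) else 0) ≤
      P * (2 ^ Fintype.card E * (2 : ℝ) ^ (-(q * θ / 2))) := by
  by_cases hm : (un u).card ≤ m
  swap
  · have h1 : ∀ σ : E → Bool, (if E2 F q θ (sw σ u) ∧ (un (sw σ u)).card ≤ m then (1 : ℝ) else 0)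
        = 0 := by
      intro σ
      rw [if_neg]
      rintro ⟨-, h⟩
      rw [un_sw] at h
      exact hm h
    simp_rw [h1, sum_const_zero]
    positivity
  set X := un u with hX
  have hfin : ((fun Z => Z ∩ X) '' F).Finite := Set.toFinite _
  set 𝒯 : Finset (Finset E) := hfin.toFinset.filter (fun T => q * θ / 2 ≤ (T.card : ℝ)) with h𝒯
  have hcard : 𝒯.card ≤ P := by
    have h1 := hP X hm
    rw [Set.ncard_eq_toFinset_card _ hfin] at h1
    exact (card_le_card (filter_subset _ _)).trans h1
  have hle : ∀ σ : E → Bool, (if E2 F q θ (sw σ u) ∧ (un (sw σ u)).card ≤ m then (1 : ℝ) else 0) ≤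
      ∑ T ∈ 𝒯, (if ∀ e ∈ T, σ e = u.1 e then (1 : ℝ) else 0) := by
    intro σ
    have hnn : ∀ T ∈ 𝒯, (0 : ℝ) ≤ (if ∀ e ∈ T, σ e = u.1 e then (1 : ℝ) else 0) := by
      intro T _; split_ifs <;> norm_num
    split_ifs with h
    swap
    · exact sum_nonneg hnn
    obtain ⟨⟨Z, hZF, hZθ, hZ0, hZc⟩, -⟩ := h
    have hT : Z ∩ X ∈ 𝒯 := by
      rw [h𝒯, mem_filter, Set.Finite.mem_toFinset]
      refine ⟨⟨Z, hZF, rfl⟩, hZc.trans ?_⟩
      have : Z.filter (fun e => (sw σ u).2 e = true) ⊆ Z ∩ X := by
        intro e he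
        rw [mem_filter] at he
        rw [mem_inter]
        refine ⟨he.1, ?_⟩
        rw [hX, ← un_sw σ u]
        unfold un
        rw [mem_filter]
        exact ⟨mem_univ _, Or.inr he.2⟩
      exact_mod_cast card_le_card this
    have h1 : (if ∀ e ∈ Z ∩ X, σ e = u.1 e then (1 : ℝ) else 0) = 1 := by
      rw [if_pos]
      intro e he
      rw [mem_inter] at he
      have h2 : (if σ e = true then u.2 e else u.1 e) = false := hZ0 e he.1
      have h3 : u.1 e = true ∨ u.2 e = true := by
        have := he.2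
        rw [hX] at this
        unfold un at this
        rw [mem_filter] at this
        exact this.2
      by_cases h4 : σ e = true
      · rw [if_pos h4] at h2
        rw [h2] at h3
        rw [h4]
        rcases h3 with h3 | h3
        · exact h3.symm
        · exact absurd h3 (by simp)
      · rw [if_neg h4] at h2
        rw [Bool.not_eq_true] at h4
        rw [h4, h2]
    calc (1 : ℝ) = (if ∀ e ∈ Z ∩ X, σ e = u.1 e then (1 : ℝ) else 0) := h1.symm
      _ ≤ _ := single_le_sum hnn hT
  refine (sum_le_sum fun σ _ => hle σ).trans ?_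
  rw [sum_comm]
  have h2 : ∀ T ∈ 𝒯, ∑ σ : E → Bool, (if ∀ e ∈ T, σ e = u.1 e then (1 : ℝ) else 0) ≤
      2 ^ Fintype.card E * (2 : ℝ) ^ (-(q * θ / 2)) := by
    intro T hT
    rw [h𝒯, mem_filter] at hT
    have h3 : ∑ σ : E → Bool, (if ∀ e ∈ T, σ e = u.1 e then (1 : ℝ) else 0) =
        ((univ.filter fun σ : E → Bool => ∀ e ∈ T, σ e = u.1 e).card : ℝ) := by
      rw [Finset.card_filter]
      push_cast
      rfl
    rw [h3, card_agree]
    push_cast
    have h4 : T.card ≤ Fintype.card E := card_le_univ _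
    have h5 : (2 : ℝ) ^ (Fintype.card E - T.card) * 2 ^ T.card = 2 ^ Fintype.card E := by
      rw [← pow_add]; congr 1; omega
    have h6 : (2 : ℝ) ^ (q * θ / 2) ≤ 2 ^ T.card := by
      rw [← Real.rpow_natCast]
      exact Real.rpow_le_rpow_of_exponent_le (by norm_num) hT.2
    rw [Real.rpow_neg (by norm_num), ← h5]
    have h7 : (0 : ℝ) < (2 : ℝ) ^ (q * θ / 2) := by positivity
    have h8 : (0 : ℝ) < (2 : ℝ) ^ (Fintype.card E - T.card) := by positivity
    calc (2 : ℝ) ^ (Fintype.card E - T.card)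
        = 2 ^ (Fintype.card E - T.card) * ((2 : ℝ) ^ (q * θ / 2) * ((2 : ℝ) ^ (q * θ / 2))⁻¹) := by
          rw [mul_inv_cancel₀ h7.ne', mul_one]
      _ ≤ 2 ^ (Fintype.card E - T.card) * (2 ^ T.card * ((2 : ℝ) ^ (q * θ / 2))⁻¹) := by
          gcongr
      _ = _ := by ring
  refine (sum_le_sum h2).trans ?_
  rw [sum_const, nsmul_eq_mul]
  have : (𝒯.card : ℝ) ≤ P := by exact_mod_cast hcard
  gcongr

/-- the symmetrised bound -/
lemma sym {F : Set (Finset E)} {q θ : ℝ} {m P : ℕ} (h0 : 0 ≤ q) (h1 : q ≤ 1)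
    (hP : ∀ X : Finset E, X.card ≤ m → ((fun Z => Z ∩ X) '' F).ncard ≤ P) :
    ∑ u : (E → Bool) × (E → Bool), w2 q u *
      (if E2 F q θ u ∧ (un u).card ≤ m then (1 : ℝ) else 0) ≤ P * (2 : ℝ) ^ (-(q * θ / 2)) := by
  set G : (E → Bool) × (E → Bool) → ℝ :=
    fun u => if E2 F q θ u ∧ (un u).card ≤ m then (1 : ℝ) else 0 with hG
  have hinv : ∀ σ : E → Bool, ∑ u, w2 q u * G (sw σ u) = ∑ u, w2 q u * G u := by
    intro σ
    rw [← Equiv.sum_comp (swE σ) (fun u => w2 q u * G u)]
    refine sum_congr rfl fun u _ => ?_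
    change w2 q u * G (sw σ u) = w2 q (sw σ u) * G (sw σ u)
    rw [w2_sw]
  have h2 : (2 : ℝ) ^ Fintype.card E * ∑ u, w2 q u * G u =
      ∑ u : (E → Bool) × (E → Bool), w2 q u * ∑ σ : E → Bool, G (sw σ u) := by
    have h3 : ∑ σ : E → Bool, ∑ u, w2 q u * G (sw σ u) =
        (2 : ℝ) ^ Fintype.card E * ∑ u, w2 q u * G u := by
      simp_rw [hinv]
      rw [sum_const, card_univ, nsmul_eq_mul, Fintype.card_fun, Fintype.card_bool]
      push_cast
      rfl
    rw [← h3, sum_comm]
    refine sum_congr rfl fun u _ => ?_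
    rw [mul_sum]
  have h4 : ∑ u : (E → Bool) × (E → Bool), w2 q u * ∑ σ : E → Bool, G (sw σ u) ≤
      ∑ u : (E → Bool) × (E → Bool), w2 q u *
        (P * (2 ^ Fintype.card E * (2 : ℝ) ^ (-(q * θ / 2)))) :=
    sum_le_sum fun u _ => mul_le_mul_of_nonneg_left (few hP u) (w2_nonneg h0 h1 u)
  rw [← h2, ← sum_mul, w2_sum, one_mul] at h4
  have h5 : (0 : ℝ) < 2 ^ Fintype.card E := by positivity
  refine le_of_mul_le_mul_left ?_ h5
  calc (2 : ℝ) ^ Fintype.card E * ∑ u, w2 q u * G u ≤ _ := h4
    _ = _ := by ring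

end

/-- **P1** the epsilon-net theorem for Bernoulli samples. -/
theorem net : N943.RC.Net := by
  intro E _ F q θ m P h0 h1 hN hθ hm hP
  have hN' : (0 : ℝ) < Fintype.card E := by exact_mod_cast hN
  -- step (a)
  have ha : bex q (fun x : E → Bool =>
      if ∃ Z ∈ F, θ ≤ (Z.card : ℝ) ∧ ∀ e ∈ Z, x e = false then (1 : ℝ) else 0) ≤
      2 * bex q (fun x : E → Bool => bex q (fun y : E → Bool =>
        if E2 F q θ (x, y) then (1 : ℝ) else 0)) := by
    rw [← bex_mul]
    refine bex_mono h0.le h1 fun x => ?_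
    split_ifs with h
    · obtain ⟨Z, hZF, hZθ, hZ0⟩ := h
      refine (half h0 h1 hθ Z hZθ).trans ?_
      refine mul_le_mul_of_nonneg_left (bex_mono h0.le h1 fun y => ?_) (by norm_num)
      split_ifs with h2 h3 h3
      · exact le_rfl
      · exact absurd ⟨Z, hZF, hZθ, hZ0, h2⟩ h3
      · norm_num
      · exact le_rfl
    · have : 0 ≤ bex q (fun y : E → Bool => if E2 F q θ (x, y) then (1 : ℝ) else 0) := by
        have h3 : bex q (fun _ : E → Bool => (0 : ℝ)) ≤
            bex q (fun y : E → Bool => if E2 F q θ (x, y) then (1 : ℝ) else 0) :=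
          bex_mono h0.le h1 fun y => by split_ifs <;> norm_num
        rwa [bex_const] at h3
      linarith
  -- step (b)
  have hb : bex q (fun x : E → Bool => bex q (fun y : E → Bool =>
        if E2 F q θ (x, y) then (1 : ℝ) else 0)) ≤
      bex q (fun x : E → Bool => bex q (fun y : E → Bool =>
        (if E2 F q θ (x, y) ∧ (un (x, y)).card ≤ m then (1 : ℝ) else 0) +
        ((if 2 * q * Fintype.card E < (cnt (univ : Finset E) x : ℝ) then (1 : ℝ) else 0) +
        (if 2 * q * Fintype.card E < (cnt (univ : Finset E) y : ℝ) then (1 : ℝ) else 0)))) := by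
    refine bex_mono h0.le h1 fun x => bex_mono h0.le h1 fun y => ?_
    by_cases hE : E2 F q θ (x, y)
    · by_cases hu : (un (x, y)).card ≤ m
      · rw [if_pos hE, if_pos ⟨hE, hu⟩]
        have h2 : (0 : ℝ) ≤ (if 2 * q * Fintype.card E < (cnt (univ : Finset E) x : ℝ)
          then (1 : ℝ) else 0) := by split_ifs <;> norm_num
        have h3 : (0 : ℝ) ≤ (if 2 * q * Fintype.card E < (cnt (univ : Finset E) y : ℝ)
          then (1 : ℝ) else 0) := by split_ifs <;> norm_num
        linarith
      · have h2 : (un (x, y)).card ≤ cnt univ x + cnt univ y := by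
          unfold un cnt
          rw [Finset.filter_or]
          exact card_union_le _ _
        have h3 : (m : ℝ) < cnt univ x + cnt univ y := by
          have : m < cnt univ x + cnt univ y := lt_of_lt_of_le (not_le.1 hu) h2
          exact_mod_cast this
        rw [if_pos hE]
        by_cases h4 : 2 * q * Fintype.card E < (cnt (univ : Finset E) x : ℝ)
        · rw [if_pos h4]
          have h5 : (0 : ℝ) ≤ (if 2 * q * Fintype.card E < (cnt (univ : Finset E) y : ℝ)
            then (1 : ℝ) else 0) := by split_ifs <;> norm_num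
          have h6 : (0 : ℝ) ≤ (if E2 F q θ (x, y) ∧ (un (x, y)).card ≤ m
            then (1 : ℝ) else 0) := by split_ifs <;> norm_num
          linarith
        · have h7 : 2 * q * Fintype.card E < (cnt (univ : Finset E) y : ℝ) := by
            have h8 := not_lt.1 h4
            linarith
          rw [if_pos h7]
          have h5 : (0 : ℝ) ≤ (if 2 * q * Fintype.card E < (cnt (univ : Finset E) x : ℝ)
            then (1 : ℝ) else 0) := by split_ifs <;> norm_num
          have h6 : (0 : ℝ) ≤ (if E2 F q θ (x, y) ∧ (un (x, y)).card ≤ m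
            then (1 : ℝ) else 0) := by split_ifs <;> norm_num
          linarith
    · rw [if_neg hE]
      have h2 : (0 : ℝ) ≤ (if 2 * q * Fintype.card E < (cnt (univ : Finset E) x : ℝ)
        then (1 : ℝ) else 0) := by split_ifs <;> norm_num
      have h3 : (0 : ℝ) ≤ (if 2 * q * Fintype.card E < (cnt (univ : Finset E) y : ℝ)
        then (1 : ℝ) else 0) := by split_ifs <;> norm_num
      have h6 : (0 : ℝ) ≤ (if E2 F q θ (x, y) ∧ (un (x, y)).card ≤ m
        then (1 : ℝ) else 0) := by split_ifs <;> norm_num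
      linarith
  have hbig := big h0 h1 hN (E := E)
  have hsym := sym (θ := θ) h0.le h1 hP
  rw [w2_bex q (fun x y => if E2 F q θ (x, y) ∧ (un (x, y)).card ≤ m then (1 : ℝ) else 0)] at hsym
  simp_rw [bex_add, bex_const] at hb
  have h9 : 1 / (q * Fintype.card E) + 1 / (q * Fintype.card E) = 2 / (q * Fintype.card E) := by
    ring
  have h10 : 4 / (q * Fintype.card E) = 2 * (2 / (q * Fintype.card E)) := by ring
  rw [h10]
  linarith

end Pool.Agent.N499.RCNet
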