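import Pool.Agent.Y522.Sum

/-!
# SH/5: the Mazur lemma
-/

set_option autoImplicit false

open Set Filter Topology Metric Function MeasureTheory
open scoped Manifold ContDiff

noncomputable section

namespace Pool.Agent.N499.SH

open Pool.Agent.Y522

/-! ### inversions -/

section inversion

variable {n : ℕ}

/-- inversion in the sphere of centre `s` and radius `t` -/
def iv (s : E n) (t : ℝ) (u : E n) : E n := s + (t / ‖u - s‖) ^ 2 • (u - s)

theorem norm_sub_pos' {s u : E n} (hu : u ≠ s) : 0 < ‖u - s‖ := norm_pos_iff.2 (sub_ne_zero.2 hu)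

theorem iv_sub_norm (s : E n) {t : ℝ} {u : E n} (hu : u ≠ s) :
    ‖iv s t u - s‖ = t ^ 2 / ‖u - s‖ := by
  have h := norm_sub_pos' hu
  unfold iv
  rw [add_sub_cancel_left, norm_smul, Real.norm_eq_abs, abs_of_nonneg (by positivity)]
  field_simp

theorem iv_ne (s : E n) {t : ℝ} (ht : 0 < t) {u : E n} (hu : u ≠ s) : iv s t u ≠ s := by
  have h := norm_sub_pos' hu
  intro hcon
  have h1 := iv_sub_norm s (t := t) hu
  rw [hcon, sub_self, norm_zero] at h1
  have : 0 < t ^ 2 / ‖u - s‖ := by positivity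
  linarith

theorem iv_iv (s : E n) {t : ℝ} (ht : 0 < t) {u : E n} (hu : u ≠ s) : iv s t (iv s t u) = u := by
  have h := norm_sub_pos' hu
  have h1 := iv_sub_norm s (t := t) hu
  have h2 : iv s t u - s = (t / ‖u - s‖) ^ 2 • (u - s) := by unfold iv; simp
  have h3 : iv s t (iv s t u) = s + (t / ‖iv s t u - s‖) ^ 2 • (iv s t u - s) := rfl
  rw [h3, h1, h2, smul_smul]
  have h4 : (t / (t ^ 2 / ‖u - s‖)) ^ 2 * (t / ‖u - s‖) ^ 2 = 1 := by field_simp
  rw [h4, one_smul]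
  abel

theorem contDiffAt_iv (s : E n) (t : ℝ) {u : E n} (hu : u ≠ s) : ContDiffAt ℝ ∞ (iv s t) u := by
  have h0 : u - s ≠ 0 := sub_ne_zero.2 hu
  have h1 : ContDiffAt ℝ ∞ (fun u : E n => u - s) u := contDiffAt_id.sub contDiffAt_const
  have h2 : ContDiffAt ℝ ∞ (fun u : E n => ‖u - s‖) u := h1.norm ℝ h0
  have h3 : ContDiffAt ℝ ∞ (fun u : E n => (t / ‖u - s‖) ^ 2) u :=
    (contDiffAt_const.div h2 (norm_ne_zero_iff.2 h0)).pow 2
  exact contDiffAt_const.add (h3.smul h1)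

theorem LD_iv (s : E n) {t : ℝ} (ht : 0 < t) {u : E n} (hu : u ≠ s) : LD n (iv s t) u := by
  refine ⟨{ toPartialEquiv :=
              { toFun := iv s t
                invFun := iv s t
                source := {s}ᶜ
                target := {s}ᶜ
                map_source' := fun x hx => iv_ne s ht hx
                map_target' := fun x hx => iv_ne s ht hx
                left_inv' := fun x hx => iv_iv s ht hx
                right_inv' := fun x hx => iv_iv s ht hx }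
            open_source := isOpen_compl_singleton
            open_target := isOpen_compl_singleton
            contMDiffOn_toFun := ?_
            contMDiffOn_invFun := ?_ }, hu, fun _ _ => rfl⟩
  · intro x hx
    exact (contMDiffAt_iff_contDiffAt.2 (contDiffAt_iv s t hx)).contMDiffWithinAt
  · intro x hx
    exact (contMDiffAt_iff_contDiffAt.2 (contDiffAt_iv s t hx)).contMDiffWithinAt

/-- the ball is diffeomorphic to the whole space -/
theorem exists_ball (s : E n) {t : ℝ} (ht : 0 < t) :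
    ∃ b : E n → E n, Injective b ∧ (∀ x, LD n b x) ∧ range b = ball s t := by
  have hs := OpenPartialHomeomorph.univBall_source s t
  have htg := OpenPartialHomeomorph.univBall_target s ht
  refine ⟨OpenPartialHomeomorph.univBall s t, ?_, ?_, ?_⟩
  · intro a b hab
    exact (OpenPartialHomeomorph.univBall s t).injOn (by rw [hs]; trivial) (by rw [hs]; trivial) hab
  · intro x
    refine ⟨{ toPartialEquiv := (OpenPartialHomeomorph.univBall s t).toPartialEquiv
              open_source := (OpenPartialHomeomorph.univBall s t).open_source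
              open_target := (OpenPartialHomeomorph.univBall s t).open_target
              contMDiffOn_toFun := ?_
              contMDiffOn_invFun := ?_ }, ?_, fun _ _ => rfl⟩
    · exact (contMDiff_iff_contDiff.2 OpenPartialHomeomorph.contDiff_univBall).contMDiffOn
    · refine contMDiffOn_iff_contDiffOn.2 ?_
      have h := OpenPartialHomeomorph.contDiffOn_univBall_symm (n := ⊤) (c := s) (r := t)
      rw [← htg] at h
      exact h
    · change x ∈ (OpenPartialHomeomorph.univBall s t).source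
      rw [hs]; trivial
  · have h := (OpenPartialHomeomorph.univBall s t).image_source_eq_target
    rw [hs, htg, image_univ] at h
    exact h

end inversion

/-! ### compact pieces of the hypersurface -/

theorem exists_radius' (hC : StCollar) {m : ℕ} {N : Set (E (m + 1))} {φ : E (m + 1) → ℝ}
    (hN : IsOpen N) (hφ : ∀ z ∈ N, ContDiffAt ℝ ∞ φ z) {f : E m → E (m + 1)}
    (hfi : Injective f) (hf : ContDiff ℝ ∞ f) (hfd : ∀ x, Injective (fderiv ℝ f x))
    (hfN : ∀ x, f x ∈ N) (h0 : ∀ x, φ (f x) = 0) (hd : ∀ x, fderiv ℝ φ (f x) ≠ 0)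
    {K : Set (E (m + 1))} (hK : IsCompact K) (hK0 : ∀ z ∈ K, φ z = 0) (hKf : K ⊆ range f) :
    ∃ R : ℝ, 0 < R ∧ ∀ z ∈ K, ∃ y, ‖y‖ < R ∧ f y = z := by
  have hO : ∀ j : ℕ, ∃ O : Set (E (m + 1)), IsOpen O ∧ (∀ y, ‖y‖ < (j : ℝ) + 1 → f y ∈ O) ∧
      ∀ x ∈ O, φ x = 0 → ∃ y, ‖y‖ < (j : ℝ) + 1 ∧ f y = x := by
    intro j
    obtain ⟨η, hη, F, hF1, hF2, hF3, hF4⟩ := hC m f φ N ((j : ℝ) + 1) (by positivity) hN hφ
      (fun x _ => Eventually.of_forall fun y => hf.contDiffAt) hfi.injOn (fun x _ => hfd x)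
      (fun x _ => hfN x) (fun x _ => Eventually.of_forall h0) (fun x _ => hd x)
    have hbo : IsOpen {z : E (m + 1) | ‖tl z‖ < (j : ℝ) + 1 ∧ |z 0| < η} := by
      apply IsOpen.inter
      · exact isOpen_lt (tl.continuous.norm) continuous_const
      · exact isOpen_lt (continuous_head.abs) continuous_const
    refine ⟨F '' {z : E (m + 1) | ‖tl z‖ < (j : ℝ) + 1 ∧ |z 0| < η}, ?_, ?_, ?_⟩
    · exact isOpen_image_of_LD hbo fun z hz => (hF3 z ⟨hz.1.le, hz.2.le⟩).1
    · intro y hy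
      exact ⟨cn 0 y, ⟨by simpa using hy, by simpa using hη⟩, hF1 y hy.le⟩
    · rintro _ ⟨z, hz, rfl⟩ hzz
      have hzb : z ∈ box m ((j : ℝ) + 1) η := ⟨hz.1.le, hz.2.le⟩
      have hz0 : z 0 = 0 := by
        rcases lt_trichotomy (z 0) 0 with h | h | h
        · exact absurd hzz ((hF4 z hzb).2 h).ne
        · exact h
        · exact absurd hzz ((hF4 z hzb).1 h).ne'
      refine ⟨tl z, hz.1, ?_⟩
      rw [← hF1 _ hz.1.le, ← hz0, cn_tl]
  choose O hO1 hO2 hO3 using hO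
  obtain ⟨t, ht⟩ := hK.elim_finite_subcover O hO1 (by
    rintro x hx
    obtain ⟨y, rfl⟩ := hKf hx
    obtain ⟨j, hj⟩ := exists_nat_gt ‖y‖
    exact mem_iUnion.2 ⟨j, hO2 j y (by linarith)⟩)
  refine ⟨((t.sup id : ℕ) : ℝ) + 1, by positivity, ?_⟩
  intro x hx
  obtain ⟨j, hj⟩ := mem_iUnion.1 (ht hx)
  obtain ⟨hjt, hj⟩ := mem_iUnion.1 hj
  obtain ⟨y, hy, hyx⟩ := hO3 j x hj (hK0 x hx)
  refine ⟨y, hy.trans_le ?_, hyx⟩
  have : j ≤ t.sup id := Finset.le_sup (f := id) hjt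
  have : (j : ℝ) ≤ ((t.sup id : ℕ) : ℝ) := by exact_mod_cast this
  linarith

/-! ### the normalised case -/

theorem mazur_norm (hC : StCollar) (hCo : StCompress) (hP : StPush) (hMo : StMoebius)
    (m : ℕ) (N : Set (E (m + 1))) (φ : E (m + 1) → ℝ) (hN : IsOpen N)
    (hφ : ∀ z ∈ N, ContDiffAt ℝ ∞ φ z) (hD : IsCompact {z | z ∈ N ∧ φ z ≤ 0})
    (hd : ∀ z ∈ N, φ z = 0 → fderiv ℝ φ z ≠ 0) (h0N : (0 : E (m + 1)) ∈ N)
    (hφ0 : ∀ᶠ z in 𝓝 (0 : E (m + 1)), φ z = z 0)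
    (hK : ∀ K : Set (E (m + 1)), IsCompact K → (∀ z ∈ K, z ∈ N ∧ φ z = 0 ∧ z ≠ 0) →
      ∃ f : E m → E (m + 1), Injective f ∧ ContDiff ℝ ∞ f ∧ (∀ x, Injective (fderiv ℝ f x)) ∧
        (∀ x, f x ∈ N ∧ φ (f x) = 0 ∧ f x ≠ 0) ∧ K ⊆ range f)
    (L : Set (E (m + 1))) (hL : IsCompact L) (hLN : ∀ z ∈ L, z ∈ N ∧ φ z < 0) :
    ∃ g : E (m + 1) → E (m + 1), Injective g ∧ (∀ x, LD (m + 1) g x) ∧ L ⊆ range g ∧
        ∀ x, g x ∈ N ∧ φ (g x) < 0 := by
  classical
  -- the radius `ρ`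
  obtain ⟨ρ, hρ, hρN, hρφ, hρL⟩ : ∃ ρ : ℝ, 0 < ρ ∧ (∀ z : E (m + 1), ‖z‖ ≤ 2 * ρ → z ∈ N) ∧
      (∀ z : E (m + 1), ‖z‖ ≤ 2 * ρ → φ z = z 0) ∧ ∀ z ∈ L, 2 * ρ < ‖z‖ := by
    have h0L : (0 : E (m + 1)) ∉ L := by
      intro h
      have h1 := (hLN 0 h).2
      rw [hφ0.self_of_nhds] at h1
      simp at h1
    have h1 : ∀ᶠ z in 𝓝 (0 : E (m + 1)), z ∈ N ∧ φ z = z 0 ∧ z ∉ L := by
      filter_upwards [hN.mem_nhds h0N, hφ0, hL.isClosed.isOpen_compl.mem_nhds h0L] with z h1 h2 h3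
      exact ⟨h1, h2, h3⟩
    obtain ⟨ε, hε, hε'⟩ := Metric.eventually_nhds_iff.1 h1
    refine ⟨ε / 4, by positivity, fun z hz => ?_, fun z hz => ?_, fun z hz => ?_⟩
    · exact (hε' (y := z) (by rw [dist_zero_right]; linarith)).1
    · exact (hε' (y := z) (by rw [dist_zero_right]; linarith)).2.1
    · by_contra hcon
      push Not at hcon
      exact (hε' (y := z) (by rw [dist_zero_right]; linarith)).2.2 hz
  set D : Set (E (m + 1)) := {z | z ∈ N ∧ φ z ≤ 0} with hDdef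
  have hneg : IsOpen {z | z ∈ N ∧ φ z < 0} := by
    rw [isOpen_iff_mem_nhds]
    rintro z ⟨hz, hz'⟩
    filter_upwards [hN.mem_nhds hz, (hφ z hz).continuousAt (Iio_mem_nhds hz')] with y h1 h2
    exact ⟨h1, h2⟩
  -- push and Moebius map
  obtain ⟨r, hr, hrρ, κ, hκb, hκd, hκ1, hκ2, hκ3⟩ := hP m ρ hρ
  have hκρ : ∀ z, ‖z‖ < ρ → ‖κ z‖ < ρ := by
    intro z hz
    by_contra hcon
    push Not at hcon
    have h1 := hκ1 (κ z) hcon
    have h2 := hκb.1 h1
    rw [h2] at hcon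
    exact absurd hz (not_lt.2 hcon)
  have hsmall : ∀ w : E (m + 1), ‖w‖ < ρ → w 0 < 0 → w ∈ N ∧ φ w < 0 := by
    intro w hw hw0
    have h1 : ‖w‖ ≤ 2 * ρ := by linarith
    exact ⟨hρN w h1, by rw [hρφ w h1]; exact hw0⟩
  obtain ⟨μ, c, hc0, hcρ, hμi, hμd, ⟨τ, hτ, hτc, hμτ⟩, hμ2, hμ3⟩ := hMo m ρ r hρ hr
  have hcD : c ∈ D := by
    have h1 := hsmall c hcρ hc0
    exact ⟨h1.1, h1.2.le⟩
  have hout : ∀ z, z ∉ D → 0 < z 0 ∨ ρ ≤ ‖z‖ := by
    intro z hz
    by_contra hcon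
    push Not at hcon
    apply hz
    have h1 : ‖z‖ ≤ 2 * ρ := by linarith [hcon.2]
    exact ⟨hρN z h1, by rw [hρφ z h1]; exact hcon.1⟩
  have hposD : ∀ w : E (m + 1), 0 < w 0 → ‖w‖ < r → w ∉ D := by
    intro w h1 h2 hcon
    have h3 : ‖w‖ ≤ 2 * ρ := by linarith
    have h4 := hcon.2
    rw [hρφ _ h3] at h4
    linarith
  have hμD : ∀ z, z ∉ D → μ z ∉ D := by
    intro z hz
    obtain ⟨h1, h2⟩ := hμ2 z (hout z hz)
    exact hposD _ h1 h2
  have hcne : ∀ z, z ∉ D → z ≠ c := fun z hz h => hz (h ▸ hcD)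
  obtain ⟨P, hP1, hP2⟩ : ∃ P : E (m + 1) → E (m + 1), (∀ z ∈ D, P z = z) ∧
      ∀ z, z ∉ D → P z = μ z :=
    ⟨fun z => if z ∈ D then z else μ z, fun z hz => if_pos hz, fun z hz => if_neg hz⟩
  have hPi : Injective P := by
    intro a b hab
    by_cases ha : a ∈ D <;> by_cases hb : b ∈ D
    · rwa [hP1 a ha, hP1 b hb] at hab
    · rw [hP1 a ha, hP2 b hb] at hab
      exact absurd (hab ▸ ha) (hμD b hb)
    · rw [hP2 a ha, hP1 b hb] at hab
      exact absurd (hab.symm ▸ hb) (hμD a ha)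
    · rw [hP2 a ha, hP2 b hb] at hab
      exact hμi (hcne a ha) (hcne b hb) hab
  set τ₁ : ℝ := min τ r with hτ₁
  have hτ₁0 : 0 < τ₁ := lt_min hτ hr
  set K2 : Set (E (m + 1)) := (D ∩ φ ⁻¹' {0}) ∩ {z | τ₁ ≤ ‖z‖} with hK2def
  have hK2 : IsCompact K2 := by
    have hcont : ContinuousOn φ D := fun z hz => (hφ z hz.1).continuousAt.continuousWithinAt
    have h1 : IsClosed (D ∩ φ ⁻¹' {0}) :=
      hcont.preimage_isClosed_of_isClosed hD.isClosed isClosed_singleton
    have h2 : IsClosed K2 := h1.inter (isClosed_le continuous_const continuous_norm)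
    exact hD.of_isClosed_subset h2 fun z hz => hz.1.1
  have hPd : ∀ z, z ∉ K2 → LD (m + 1) P z := by
    intro z hz
    by_cases hzD : z ∈ D
    · rcases hzD.2.lt_or_eq with h | h
      · refine (LD.id z).congr ?_
        filter_upwards [hneg.mem_nhds ⟨hzD.1, h⟩] with y hy
        exact hP1 y ⟨hy.1, hy.2.le⟩
      · have hzτ : ‖z‖ < τ₁ := by
          by_contra hcon
          exact hz ⟨⟨hzD, h⟩, not_lt.1 hcon⟩
        refine (LD.id z).congr ?_
        filter_upwards [(isOpen_lt continuous_norm continuous_const).mem_nhds hzτ] with y hy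
        by_cases hy' : y ∈ D
        · exact hP1 y hy'
        · rw [hP2 y hy', hμτ y (lt_of_lt_of_le hy (min_le_left _ _))]
    · refine (hμd z (hcne z hzD)).congr ?_
      filter_upwards [hD.isClosed.isOpen_compl.mem_nhds hzD] with y hy
      exact hP2 y hy
  have hPr : ∀ z, z ∉ K2 → κ (P z) ∈ N ∧ φ (κ (P z)) < 0 := by
    intro z hz
    by_cases hzD : z ∈ D
    · rw [hP1 z hzD]
      rcases lt_or_ge ‖z‖ ρ with h | h
      · refine hsmall _ (hκρ z h) ?_
        have h1 : ‖z‖ ≤ 2 * ρ := by linarith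
        rcases hzD.2.lt_or_eq with h2 | h2
        · rw [hρφ z h1] at h2
          exact lt_of_le_of_lt (hκ2 z) h2
        · have hzτ : ‖z‖ < τ₁ := by
            by_contra hcon
            exact hz ⟨⟨hzD, h2⟩, not_lt.1 hcon⟩
          exact hκ3 z (hzτ.le.trans (min_le_right _ _))
      · rw [hκ1 z h]
        refine ⟨hzD.1, ?_⟩
        rcases hzD.2.lt_or_eq with h2 | h2
        · exact h2
        · exfalso
          refine hz ⟨⟨hzD, h2⟩, ?_⟩
          have h3 : τ₁ ≤ r := min_le_right _ _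
          exact h3.trans (hrρ.le.trans h)
    · rw [hP2 z hzD]
      obtain ⟨h1, h2⟩ := hμ2 z (hout z hzD)
      exact hsmall _ (hκρ _ (h2.trans hrρ)) (hκ3 _ h2.le)
  -- engulfing of the hypersurface
  obtain ⟨f, hfi, hf, hfd, hfN, hKf⟩ := hK K2 hK2 (by
    rintro z ⟨⟨hz, hz0⟩, hzτ⟩
    refine ⟨hz.1, hz0, ?_⟩
    rintro rfl
    have h1 : τ₁ ≤ ‖(0 : E (m + 1))‖ := hzτ
    rw [norm_zero] at h1
    linarith)
  have hfd' : ∀ x, fderiv ℝ φ (f x) ≠ 0 := fun x => hd _ (hfN x).1 (hfN x).2.1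
  obtain ⟨R₀, hR₀, hR₀K⟩ := exists_radius' hC hN hφ hfi hf hfd (fun x => (hfN x).1)
    (fun x => (hfN x).2.1) hfd' hK2 (fun z hz => hz.1.2) hKf
  have hfL : ∀ x, f x ∉ L := by
    intro x hx
    have h1 := (hLN _ hx).2
    rw [(hfN x).2.1] at h1
    exact lt_irrefl _ h1
  obtain ⟨t, ht, htL⟩ : ∃ t : ℝ, 0 < t ∧ ∀ z ∈ L, t < ‖z - f 0‖ := by
    obtain ⟨ε, hε, hε'⟩ := Metric.isOpen_iff.1 hL.isClosed.isOpen_compl (f 0) (hfL 0)
    refine ⟨ε / 2, by positivity, fun z hz => ?_⟩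
    by_contra hcon
    push Not at hcon
    have h1 : z ∈ ball (f 0) ε := by
      rw [mem_ball, dist_eq_norm]
      linarith
    exact hε' h1 hz
  obtain ⟨η, hη, F, hF1, hF2, hF3, hF4⟩ := hC m f φ (N \ L) (R₀ + 1) (by positivity)
    (hN.sdiff hL.isClosed) (fun z hz => hφ z hz.1)
    (fun x _ => Eventually.of_forall fun y => hf.contDiffAt) hfi.injOn (fun x _ => hfd x)
    (fun x _ => ⟨(hfN x).1, hfL x⟩) (fun x _ => Eventually.of_forall fun y => (hfN y).2.1)
    (fun x _ => hfd' x)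
  obtain ⟨τ₂, hτ₂, hτ₂'⟩ : ∃ τ₂ : ℝ, 0 < τ₂ ∧
      ∀ q : E m, ‖q‖ < τ₂ → F (cn 0 q) ∈ ball (f 0) t := by
    have h1 : ∀ᶠ q in 𝓝 (0 : E m), f q ∈ ball (f 0) t :=
      hf.continuous.continuousAt (isOpen_ball.mem_nhds (mem_ball_self ht))
    obtain ⟨ε, hε, hε'⟩ := Metric.eventually_nhds_iff.1 h1
    refine ⟨min ε (R₀ + 1), lt_min hε (by positivity), fun q hq => ?_⟩
    rw [hF1 q (hq.le.trans (min_le_right _ _))]
    refine hε' (y := q) ?_
    rw [dist_zero_right]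
    exact lt_of_lt_of_le hq (min_le_left _ _)
  obtain ⟨Λ, hΛb, hΛd, hΛ1, -, hΛ3⟩ := hCo m (E (m + 1)) F (R₀ + 1) η (by positivity) hη hF2
    (fun z hz => (hF3 z hz).1) R₀ (by linarith) τ₂ hτ₂
  have hΛK : ∀ z ∈ K2, Λ z ∈ ball (f 0) t := by
    intro z hz
    obtain ⟨y, hy, rfl⟩ := hR₀K z hz
    rw [← hF1 y (by linarith)]
    obtain ⟨q, hq, hqe⟩ := hΛ3 y hy.le
    rw [hqe]
    exact hτ₂' q hq
  obtain ⟨Li, hLi1, hLi2⟩ := Function.bijective_iff_has_inverse.1 hΛb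
  have hLid : ∀ x, LD (m + 1) Li x := fun x => LD.inverse_bij hΛb hΛd hLi1 x
  have hLi : ∀ z, z ∉ F '' (box m (R₀ + 1) η) → Li z = z := by
    intro z hz
    have h1 := hLi1 z
    rwa [hΛ1 z hz] at h1
  have hLii : Injective Li := hLi2.injective
  -- the ball
  obtain ⟨b, hbi, hbd, hbr⟩ := exists_ball (f 0) ht
  obtain ⟨ν, hνd, hνe, hν0, hνr, hνne⟩ := hμ3 (f 0) t ht
  generalize hs : f 0 = s at htL hτ₂' hΛK hbr hνd hνe hν0 hνr hνne
  have hball : ∀ x, ‖b x - s‖ < t := by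
    intro x
    have h1 : b x ∈ ball s t := by rw [← hbr]; exact mem_range_self x
    rwa [mem_ball, dist_eq_norm] at h1
  have hK2' : ∀ x, b x ≠ s → Li (iv s t (b x)) ∉ K2 := by
    intro x hus hcon
    have h1 := hΛK _ hcon
    rw [hLi2, mem_ball, dist_eq_norm, iv_sub_norm s hus] at h1
    have h2 := norm_sub_pos' hus
    rw [div_lt_iff₀ h2] at h1
    have h3 := hball x
    nlinarith
  obtain ⟨g, hg1, hg2⟩ : ∃ g : E (m + 1) → E (m + 1),
      (∀ x, b x ≠ s → g x = κ (P (Li (iv s t (b x))))) ∧ ∀ x, b x = s → g x = κ (ν s) := by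
    refine ⟨fun x => if b x = s then κ (ν s) else κ (P (Li (iv s t (b x)))), fun x hx => ?_,
      fun x hx => ?_⟩
    · simp only [hx, if_false]
    · simp only [hx, if_true]
  -- near the centre
  have hcen : ∀ᶠ u in 𝓝 s, u ≠ s → ν u = P (Li (iv s t u)) := by
    have hbd1 : Bornology.IsBounded (D ∪ F '' (box m (R₀ + 1) η)) := by
      refine (hD.union ?_).isBounded
      refine (isCompact_box _ _).image_of_continuousOn ?_
      intro z hz
      exact (hF3 z hz).1.continuousAt.continuousWithinAt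
    obtain ⟨B, hB⟩ := hbd1.subset_ball s
    have hB1 : ∀ z, B ≤ ‖z - s‖ → z ∉ D ∧ z ∉ F '' (box m (R₀ + 1) η) := by
      intro z hz
      constructor
      · intro h
        have h1 := hB (Or.inl h)
        rw [mem_ball, dist_eq_norm] at h1
        linarith
      · intro h
        have h1 := hB (Or.inr h)
        rw [mem_ball, dist_eq_norm] at h1
        linarith
    have h1 : ∀ᶠ u in 𝓝 s, ‖u - s‖ < t ^ 2 / (|B| + 1) := by
      have h2 : (0 : ℝ) < t ^ 2 / (|B| + 1) := by positivity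
      filter_upwards [ball_mem_nhds s h2] with u hu
      rwa [mem_ball, dist_eq_norm] at hu
    have h2 := eventually_nhdsWithin_iff.1 hνe
    filter_upwards [h1, h2] with u hu hu2 hus
    rw [hu2 hus]
    have h3 := norm_sub_pos' hus
    have h4 : B ≤ ‖iv s t u - s‖ := by
      rw [iv_sub_norm s hus, le_div_iff₀ h3]
      rw [lt_div_iff₀ (by positivity)] at hu
      have h5 := le_abs_self B
      nlinarith
    obtain ⟨h5, h6⟩ := hB1 _ h4
    rw [hLi _ h6, hP2 _ h5]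
    rfl
  refine ⟨g, ?_, ?_, ?_, ?_⟩
  · -- injectivity
    have hmix : ∀ x y, b x = s → b y ≠ s → g x ≠ g y := by
      intro x y hx hy hxy
      rw [hg2 x hx, hg1 y hy] at hxy
      have h1 := hκb.1 hxy
      by_cases hD' : Li (iv s t (b y)) ∈ D
      · rw [hP1 _ hD'] at h1
        exact hposD _ hν0 hνr (h1 ▸ hD')
      · rw [hP2 _ hD'] at h1
        exact hνne _ (hcne _ hD') h1.symm
    intro x y hxy
    by_cases hx : b x = s <;> by_cases hy : b y = s
    · exact hbi (hx.trans hy.symm)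
    · exact absurd hxy (hmix x y hx hy)
    · exact absurd hxy.symm (hmix y x hy hx)
    · rw [hg1 x hx, hg1 y hy] at hxy
      have h1 := hLii (hPi (hκb.1 hxy))
      have h2 : iv s t (iv s t (b x)) = iv s t (iv s t (b y)) := by rw [h1]
      rw [iv_iv s ht hx, iv_iv s ht hy] at h2
      exact hbi h2
  · -- local diffeomorphism
    intro x
    by_cases hx : b x = s
    · have h1 : LD (m + 1) (fun y => κ (ν (b y))) x := by
        refine LD.comp_fun (g := fun z => κ z) (hκd _) (LD.comp_fun (g := ν) ?_ (hbd x))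
        rw [hx]; exact hνd
      refine h1.congr ?_
      have h2 : Tendsto b (𝓝 x) (𝓝 s) := by
        have := (hbd x).continuousAt.tendsto
        rwa [hx] at this
      filter_upwards [h2.eventually hcen] with y hy
      by_cases hy' : b y = s
      · rw [hg2 y hy', hy']
      · rw [hg1 y hy', hy hy']
    · have h1 : LD (m + 1) (fun y => κ (P (Li (iv s t (b y))))) x := by
        refine LD.comp_fun (g := κ) (hκd _) (LD.comp_fun (g := P) (hPd _ (hK2' x hx)) ?_)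
        exact LD.comp_fun (g := Li) (hLid _) (LD.comp_fun (g := iv s t) (LD_iv s ht hx) (hbd x))
      refine h1.congr ?_
      have h2 : ∀ᶠ y in 𝓝 x, b y ≠ s :=
        (hbd x).continuousAt (isOpen_compl_singleton.mem_nhds hx)
      filter_upwards [h2] with y hy
      exact hg1 y hy
  · -- `L` is in the range
    intro l hl
    have hlt := htL l hl
    have hls : l ≠ s := by
      rintro rfl
      simp at hlt
      linarith
    have h1 : iv s t l ∈ ball s t := by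
      rw [mem_ball, dist_eq_norm, iv_sub_norm s hls, div_lt_iff₀ (norm_sub_pos' hls)]
      nlinarith
    rw [← hbr] at h1
    obtain ⟨x, hx⟩ := h1
    have hxs : b x ≠ s := by rw [hx]; exact iv_ne s ht hls
    refine ⟨x, ?_⟩
    rw [hg1 x hxs, hx, iv_iv s ht hls]
    have h2 : l ∉ F '' (box m (R₀ + 1) η) := by
      rintro ⟨z, hz, rfl⟩
      exact (hF3 z hz).2.2 hl
    have h3 : l ∈ D := ⟨(hLN l hl).1, (hLN l hl).2.le⟩
    rw [hLi l h2, hP1 l h3]
    exact hκ1 l (by linarith [hρL l hl])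
  · -- the range
    intro x
    by_cases hx : b x = s
    · rw [hg2 x hx]
      exact hsmall _ (hκρ _ (hνr.trans hrρ)) (hκ3 _ hνr.le)
    · rw [hg1 x hx]
      exact hPr _ (hK2' x hx)

/-! ### the general case -/

theorem mazur (hC : StCollar) (hCo : StCompress) (hG : StGerm) (hP : StPush) (hMo : StMoebius)
    (hA : StAdapt) : StMazur := by
  intro m N φ s₀ hN hφ hD hd hs₀ hφs₀ hK L hL hLN
  -- coordinates at `s₀`
  obtain ⟨e, hed, he0, hee⟩ := hA m (E (m + 1)) φ s₀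
    (by
      filter_upwards [hN.mem_nhds hs₀] with y hy
      exact contMDiffAt_iff_contDiffAt.2 (hφ y hy))
    (by
      rw [mfderiv_eq_fderiv]
      exact hd s₀ hs₀ hφs₀)
  obtain ⟨p, hpd, hp0, hpe, hep⟩ := hed.exists_inverse
  rw [he0] at hpd hp0 hep
  obtain ⟨Θ, hΘb, hΘd, hΘe⟩ := exists_normalise hG p hpd
  obtain ⟨Ψ, hΨ1, hΨ2⟩ := Function.bijective_iff_has_inverse.1 hΘb
  have hΨd : ∀ x, LD (m + 1) Ψ x := fun x => LD.inverse_bij hΘb hΘd hΨ1 x
  have hΨc : Continuous Ψ := LD.continuous_of_forall hΨd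
  have hΘc : Continuous Θ := LD.continuous_of_forall hΘd
  have hΨ0 : Ψ 0 = s₀ := by
    have h1 := hΘe.self_of_nhds
    rw [hp0] at h1
    rw [← h1, hΨ1]
  have hΘs₀ : Θ s₀ = 0 := by rw [← hΨ0, hΨ2]
  have hΨi : Injective Ψ := hΨ2.injective
  -- `Ψ = p` near `0`
  have hΨp : ∀ᶠ z in 𝓝 (0 : E (m + 1)), Ψ z = p z := by
    filter_upwards [hΘe] with z hz
    have h1 := hΨ1 (p z)
    rwa [hz] at h1
  have hφ' : ∀ z ∈ Ψ ⁻¹' N, ContDiffAt ℝ ∞ (φ ∘ Ψ) z := fun z hz =>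
    (hφ _ hz).comp z (hΨd z).contDiffAt
  obtain ⟨g, hgi, hgd, hgL, hgr⟩ := mazur_norm hC hCo hP hMo m (Ψ ⁻¹' N) (φ ∘ Ψ)
    (hN.preimage hΨc) hφ'
    (by
      have h1 : {z | z ∈ Ψ ⁻¹' N ∧ (φ ∘ Ψ) z ≤ 0} = Θ '' {z | z ∈ N ∧ φ z ≤ 0} := by
        ext z
        constructor
        · intro hz
          exact ⟨Ψ z, hz, hΨ2 z⟩
        · rintro ⟨w, hw, rfl⟩
          change Ψ (Θ w) ∈ N ∧ φ (Ψ (Θ w)) ≤ 0
          rw [hΨ1]
          exact hw
      rw [h1]
      exact hD.image hΘc)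
    (by
      intro z hz hz0 hcon
      apply hd _ hz hz0
      obtain ⟨A, hA'⟩ := (hΨd z).exists_equiv
      have h1 : HasFDerivAt (φ ∘ Ψ) ((fderiv ℝ φ (Ψ z)).comp (A : E (m + 1) →L[ℝ] E (m + 1))) z :=
        ((hφ _ hz).differentiableAt (by simp)).hasFDerivAt.comp z hA'
      rw [h1.fderiv] at hcon
      ext v
      have h2 : ((fderiv ℝ φ (Ψ z)).comp (A : E (m + 1) →L[ℝ] E (m + 1))) (A.symm v) = 0 := by
        rw [hcon]; rfl
      simpa using h2)
    (by
      change Ψ 0 ∈ N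
      rw [hΨ0]; exact hs₀)
    (by
      have h1 : Tendsto p (𝓝 0) (𝓝 s₀) := by
        have := hpd.continuousAt.tendsto
        rwa [hp0] at this
      filter_upwards [hΨp, hep, h1.eventually hee] with z h2 h3 h4
      simp only [Function.comp]
      rw [h2]
      rw [h3, hφs₀, sub_zero] at h4
      exact h4.symm)
    (by
      intro K hK' hK0
      obtain ⟨f, hfi, hf, hfd, hfN, hKf⟩ := hK (Ψ '' K) (hK'.image hΨc) (by
        rintro _ ⟨z, hz, rfl⟩
        obtain ⟨h1, h2, h3⟩ := hK0 z hz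
        refine ⟨h1, h2, ?_⟩
        intro h4
        apply h3
        apply hΨi
        rw [h4, hΨ0])
      refine ⟨Θ ∘ f, hΘb.1.comp hfi, ?_, ?_, ?_, ?_⟩
      · exact contDiff_iff_contDiffAt.2 fun x => (hΘd _).contDiffAt.comp x hf.contDiffAt
      · intro x
        obtain ⟨A, hA'⟩ := (hΘd (f x)).exists_equiv
        have h1 : HasFDerivAt (Θ ∘ f) ((A : E (m + 1) →L[ℝ] E (m + 1)).comp (fderiv ℝ f x)) x :=
          hA'.comp x (hf.contDiffAt.differentiableAt (by simp)).hasFDerivAt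
        rw [h1.fderiv]
        exact A.injective.comp (hfd x)
      · intro x
        obtain ⟨h1, h2, h3⟩ := hfN x
        refine ⟨?_, ?_, ?_⟩
        · change Ψ (Θ (f x)) ∈ N
          rw [hΨ1]; exact h1
        · change φ (Ψ (Θ (f x))) = 0
          rw [hΨ1]; exact h2
        · intro h4
          apply h3
          apply hΘb.1
          rw [hΘs₀]; exact h4
      · intro z hz
        obtain ⟨x, hx⟩ := hKf ⟨z, hz, rfl⟩
        exact ⟨x, by simp only [Function.comp]; rw [hx, hΨ2]⟩)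
    (Θ '' L) (hL.image hΘc)
    (by
      rintro _ ⟨z, hz, rfl⟩
      change Ψ (Θ z) ∈ N ∧ φ (Ψ (Θ z)) < 0
      rw [hΨ1]
      exact hLN z hz)
  refine ⟨Ψ ∘ g, hΨi.comp hgi, fun x => LD.comp' (hΨd _) (hgd x), ?_, fun x => hgr x⟩
  intro l hl
  obtain ⟨x, hx⟩ := hgL ⟨l, hl, rfl⟩
  exact ⟨x, by simp only [Function.comp]; rw [hx, hΨ1]⟩

end Pool.Agent.N499.SH
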