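import Pool.Agent.N502.TM.Stm

/-! # Project TM, part PRJ (helper499 for helper502): the projection to the subspace has the measure of
the shadow. -/

set_option autoImplicit false

namespace Pool.Agent.N499.TM.PRJ

open MeasureTheory Set
open scoped ENNReal InnerProductSpace
open Pool.Agent.N502.TM

/-- completion of a vector by zeros -/
noncomputable def pad (n i : ℕ) : V i →ₗ[ℝ] V n where
  toFun y := WithLp.toLp 2 (fun k : Fin n => if hk : (k : ℕ) < i then y ⟨k, hk⟩ else 0)
  map_add' y z := by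
    ext k
    by_cases hk : (k : ℕ) < i
    · simp [hk]
    · simp [hk]
  map_smul' c y := by
    ext k
    by_cases hk : (k : ℕ) < i
    · simp [hk]
    · simp [hk]

theorem pad_apply {n i : ℕ} (y : V i) (k : Fin n) :
    pad n i y k = if hk : (k : ℕ) < i then y ⟨k, hk⟩ else 0 := rfl

theorem inner_pad {n i : ℕ} (h : i ≤ n) (x : V n) (y : V i) : ⟪x, pad n i y⟫_ℝ = ⟪pr h x, y⟫_ℝ := by
  rw [PiLp.inner_apply, PiLp.inner_apply]
  symm
  refine Fintype.sum_of_injective (Fin.castLE h) (Fin.castLE_injective h) _ _ ?_ ?_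
  · intro k hk
    rw [pad_apply, dif_neg, inner_zero_right]
    intro hki
    exact hk ⟨⟨k, hki⟩, rfl⟩
  · intro j
    rw [pad_apply, dif_pos (by simp)]
    rfl

theorem pr_pad {n i : ℕ} (h : i ≤ n) (y : V i) : pr h (pad n i y) = y := by
  ext j
  change pad n i y (Fin.castLE h j) = y j
  rw [pad_apply, dif_pos (by simp)]
  rfl

theorem act_inv {n : ℕ} (g : O n) (x y : V n) : ⟪act g⁻¹ x, y⟫_ℝ = ⟪x, act g y⟫_ℝ := by
  unfold act
  have h1 : ((g⁻¹ : O n) : Matrix (Fin n) (Fin n) ℝ) =
      (g : Matrix (Fin n) (Fin n) ℝ).conjTranspose := rfl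
  rw [h1, Matrix.toEuclideanLin_conjTranspose_eq_adjoint, LinearMap.adjoint_inner_left]

theorem act_mul {n : ℕ} (g h : O n) (x : V n) : act (g * h) x = act g (act h x) := by
  unfold act
  have h1 : ((g * h : O n) : Matrix (Fin n) (Fin n) ℝ) =
      (g : Matrix (Fin n) (Fin n) ℝ) * (h : Matrix (Fin n) (Fin n) ℝ) := rfl
  rw [h1]
  ext k
  simp [Matrix.toEuclideanLin, Matrix.mulVec_mulVec]

theorem act_one {n : ℕ} (x : V n) : act (1 : O n) x = x := by
  unfold act
  have h1 : ((1 : O n) : Matrix (Fin n) (Fin n) ℝ) = 1 := rfl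
  rw [h1]
  ext k
  simp [Matrix.toEuclideanLin]

/-- the isometry of `ℝ^i` onto the subspace -/
noncomputable def J {n i : ℕ} (h : i ≤ n) (g : O n) : V i →ₗᵢ[ℝ] V n where
  toLinearMap := (Matrix.toEuclideanLin (g : Matrix (Fin n) (Fin n) ℝ)) ∘ₗ pad n i
  norm_map' y := by
    change ‖act g (pad n i y)‖ = ‖y‖
    have h1 : ⟪act g (pad n i y), act g (pad n i y)⟫_ℝ = ⟪y, y⟫_ℝ := by
      rw [← act_inv, ← act_mul, inv_mul_cancel, act_one, inner_pad h, pr_pad]
    rw [real_inner_self_eq_norm_sq, real_inner_self_eq_norm_sq] at h1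
    exact (sq_eq_sq₀ (norm_nonneg _) (norm_nonneg _)).1 h1

theorem inner_J {n i : ℕ} (h : i ≤ n) (g : O n) (x : V n) (y : V i) :
    ⟪x, J h g y⟫_ℝ = ⟪pr h (act g⁻¹ x), y⟫_ℝ := by
  change ⟪x, act g (pad n i y)⟫_ℝ = _
  rw [← act_inv, inner_pad h]

theorem range_pad {n i : ℕ} : Submodule.span ℝ
    (Set.range fun j : {j : Fin n // (j : ℕ) < i} =>
      (EuclideanSpace.single (j : Fin n) (1 : ℝ) : V n)) = LinearMap.range (pad n i) := by
  apply le_antisymm
  · rw [Submodule.span_le]
    rintro _ ⟨j, rfl⟩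
    refine ⟨EuclideanSpace.single ⟨j, j.2⟩ 1, ?_⟩
    ext k
    rw [pad_apply]
    by_cases hk : (k : ℕ) < i
    · rw [dif_pos hk]
      by_cases hkj : k = (j : Fin n)
      · subst hkj
        simp
      · have h1 : (⟨(k : ℕ), hk⟩ : Fin i) ≠ ⟨((j : Fin n) : ℕ), j.2⟩ := by
          intro h2
          apply hkj
          have h3 : (k : ℕ) = ((j : Fin n) : ℕ) := by
            have h4 := congrArg (fun z : Fin i => (z : ℕ)) h2
            exact h4
          exact Fin.ext h3
        simp [h1, hkj]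
    · rw [dif_neg hk]
      have hkj : k ≠ (j : Fin n) := by
        rintro rfl
        exact hk j.2
      simp [hkj]
  · rintro _ ⟨y, rfl⟩
    have h1 : pad n i y = ∑ j : {j : Fin n // (j : ℕ) < i},
        (y ⟨(j : Fin n), j.2⟩) • (EuclideanSpace.single (j : Fin n) (1 : ℝ) : V n) := by
      ext k
      rw [pad_apply]
      simp only [WithLp.ofLp_sum, WithLp.ofLp_smul, Finset.sum_apply, Pi.smul_apply, smul_eq_mul,
        PiLp.single_apply]
      by_cases hk : (k : ℕ) < i
      · rw [dif_pos hk, Finset.sum_eq_single ⟨k, hk⟩]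
        · simp
        · intro b _ hb
          rw [if_neg, mul_zero]
          intro h2
          exact hb (Subtype.ext h2.symm)
        · intro h2
          exact absurd (Finset.mem_univ _) h2
      · rw [dif_neg hk]
        symm
        apply Finset.sum_eq_zero
        intro b _
        rw [if_neg, mul_zero]
        rintro rfl
        exact hk b.2
    rw [h1]
    exact Submodule.sum_mem _ fun j _ => Submodule.smul_mem _ _
      (Submodule.subset_span ⟨j, rfl⟩)

theorem Sub_eq {n i : ℕ} (h : i ≤ n) (g : O n) :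
    Pool.Agent.N502.TM.Sub n i g = LinearMap.range (J h g).toLinearMap := by
  unfold Pool.Agent.N502.TM.Sub
  rw [range_pad]
  exact (LinearMap.range_comp _ _).symm

theorem key {n i : ℕ} (j : V i →ₗᵢ[ℝ] V n) (P : V n → V i)
    (hP : ∀ (x : V n) (y : V i), ⟪x, j y⟫_ℝ = ⟪P x, y⟫_ℝ) (S : Submodule ℝ (V n))
    (hS : S = LinearMap.range j.toLinearMap) (E : Set (V n)) :
    volume (S.orthogonalProjectionOnto '' E) = volume (P '' E) := by
  subst hS
  have h1 : ∀ x, (LinearMap.range j.toLinearMap).orthogonalProjectionOnto x =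
      j.equivRange (P x) := by
    intro x
    apply Subtype.ext
    change (LinearMap.range j.toLinearMap).starProjection x = j (P x)
    refine Submodule.eq_starProjection_of_mem_of_inner_eq_zero ⟨P x, rfl⟩ ?_
    rintro _ ⟨y, rfl⟩
    change ⟪x - j (P x), j y⟫_ℝ = 0
    rw [inner_sub_left, hP, j.inner_map_map, sub_self]
  have h2 : (LinearMap.range j.toLinearMap).orthogonalProjectionOnto '' E =
      j.equivRange '' (P '' E) := by
    rw [Set.image_image]
    exact Set.image_congr fun x _ => h1 x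
  rw [h2]
  have h3 := (j.equivRange.measurePreserving).measure_preimage_emb
    j.equivRange.toHomeomorph.measurableEmbedding (j.equivRange '' (P '' E))
  rw [← h3, Set.preimage_image_eq _ j.equivRange.injective]

theorem main : S_PRJ := by
  intro n i h g E
  exact key (J h g) (fun x => pr h (act g⁻¹ x)) (inner_J h g) _ (Sub_eq h g) E

end Pool.Agent.N499.TM.PRJ
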