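import Pool.Agent.N709.UM.Stm

/-!
Project UM (helper709), leaf NWD: the pseudonorm defined by weights of words.
-/

set_option autoImplicit false

universe u

namespace Pool.Agent.N499.UM

open Pool.Agent.N709.UM (PN ev wt Nwd)

section

variable {G : Type u} [Group G]

theorem pn_nonneg {ρ : G → ℝ} (h : PN ρ) (g : G) : 0 ≤ ρ g := by
  have h1 := h.mul g g⁻¹
  rw [mul_inv_cancel, h.one, h.inv] at h1
  linarith

theorem ev_append (y : ℕ → G) (w w' : List (G ⊕ (ℕ × Bool))) :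
    ev y (w ++ w') = ev y w * ev y w' := by
  induction w with
  | nil => simp [ev]
  | cons a w ih =>
    rcases a with u | ⟨j, s⟩
    · simp only [List.cons_append, ev, ih, mul_assoc]
    · simp only [List.cons_append, ev, ih, mul_assoc]

theorem wt_append (ρ : G → ℝ) (ε : ℕ → ℝ) (w w' : List (G ⊕ (ℕ × Bool))) :
    wt ρ ε (w ++ w') = wt ρ ε w + wt ρ ε w' := by
  induction w with
  | nil => simp [wt]
  | cons a w ih =>
    rcases a with u | ⟨j, s⟩
    · simp only [List.cons_append, wt, ih, add_assoc]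
    · simp only [List.cons_append, wt, ih, add_assoc]

theorem wt_nonneg {ρ : G → ℝ} (h : PN ρ) {ε : ℕ → ℝ} (hε : ∀ k, 0 < ε k)
    (w : List (G ⊕ (ℕ × Bool))) : 0 ≤ wt ρ ε w := by
  induction w with
  | nil => exact le_rfl
  | cons a w ih =>
    rcases a with u | ⟨j, s⟩
    · exact add_nonneg (pn_nonneg h u) ih
    · exact add_nonneg (hε j).le ih

/-- the inverse letter -/
def il : G ⊕ (ℕ × Bool) → G ⊕ (ℕ × Bool)
  | Sum.inl u => Sum.inl u⁻¹
  | Sum.inr (j, s) => Sum.inr (j, !s)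

/-- the inverse word -/
def iw (w : List (G ⊕ (ℕ × Bool))) : List (G ⊕ (ℕ × Bool)) := (w.map il).reverse

theorem iw_cons (a : G ⊕ (ℕ × Bool)) (w : List (G ⊕ (ℕ × Bool))) :
    iw (a :: w) = iw w ++ [il a] := by
  unfold iw
  rw [List.map_cons, List.reverse_cons]

theorem ev_iw (y : ℕ → G) (w : List (G ⊕ (ℕ × Bool))) : ev y (iw w) = (ev y w)⁻¹ := by
  induction w with
  | nil => simp [iw, ev]
  | cons a w ih =>
    rw [iw_cons, ev_append, ih]
    rcases a with u | ⟨j, s⟩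
    · simp [il, ev]
    · cases s <;> simp [il, ev]

theorem wt_iw {ρ : G → ℝ} (h : PN ρ) (ε : ℕ → ℝ) (w : List (G ⊕ (ℕ × Bool))) :
    wt ρ ε (iw w) = wt ρ ε w := by
  induction w with
  | nil => simp [iw]
  | cons a w ih =>
    rw [iw_cons, wt_append, ih]
    rcases a with u | ⟨j, s⟩
    · simp [il, wt, h.inv]
      ring
    · simp [il, wt]
      ring

/-- the weights of the words which represent `g` -/
def SS (ρ : G → ℝ) (ε : ℕ → ℝ) (y : ℕ → G) (g : G) : Set ℝ := {r | ∃ w, ev y w = g ∧ wt ρ ε w = r}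

/-- the pseudonorm -/
noncomputable def NN (ρ : G → ℝ) (ε : ℕ → ℝ) (y : ℕ → G) (g : G) : ℝ := sInf (SS ρ ε y g)

theorem ev_one (y : ℕ → G) (g : G) : ev y [Sum.inl g] = g := by simp [ev]

theorem NN_le {ρ : G → ℝ} (h : PN ρ) {ε : ℕ → ℝ} (hε : ∀ k, 0 < ε k) (y : ℕ → G)
    (w : List (G ⊕ (ℕ × Bool))) {g : G} (hw : ev y w = g) : NN ρ ε y g ≤ wt ρ ε w := by
  refine csInf_le ⟨0, ?_⟩ ⟨w, hw, rfl⟩
  rintro r ⟨w', -, rfl⟩
  exact wt_nonneg h hε w'

theorem le_NN {ρ : G → ℝ} {ε : ℕ → ℝ} (y : ℕ → G) {g : G} {c : ℝ}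
    (hc : ∀ w, ev y w = g → c ≤ wt ρ ε w) : c ≤ NN ρ ε y g := by
  refine le_csInf ⟨_, [Sum.inl g], ev_one y g, rfl⟩ ?_
  rintro r ⟨w, hw, rfl⟩
  exact hc w hw

theorem NN_inv_le {ρ : G → ℝ} (h : PN ρ) {ε : ℕ → ℝ} (hε : ∀ k, 0 < ε k) (y : ℕ → G) (g : G) :
    NN ρ ε y g⁻¹ ≤ NN ρ ε y g := by
  refine le_NN y fun w hw => ?_
  rw [← wt_iw h ε w]
  exact NN_le h hε y (iw w) (by rw [ev_iw, hw])

end

/-- NWD -/
theorem nwd : Nwd.{u} := by
  intro G _ ρ h ε hε y z δ hz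
  refine ⟨NN ρ ε y, ⟨?_, fun g => ?_, fun g g' => ?_⟩, fun g => ?_, fun k => ?_, le_NN y hz⟩
  · refine le_antisymm (NN_le h hε y [] rfl) (le_NN y fun w _ => wt_nonneg h hε w)
  · refine le_antisymm (NN_inv_le h hε y g) ?_
    have h1 := NN_inv_le h hε y g⁻¹
    rwa [inv_inv] at h1
  · have h1 : NN ρ ε y (g * g') - NN ρ ε y g' ≤ NN ρ ε y g := by
      refine le_NN y fun w hw => ?_
      have h2 : NN ρ ε y (g * g') - wt ρ ε w ≤ NN ρ ε y g' := by
        refine le_NN y fun w' hw' => ?_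
        have h3 := NN_le h hε y (w ++ w') (g := g * g') (by rw [ev_append, hw, hw'])
        rw [wt_append] at h3
        linarith
      linarith
    linarith
  · have h1 := NN_le h hε y [Sum.inl g] (ev_one y g)
    simpa [wt] using h1
  · have h1 := NN_le h hε y [Sum.inr (k, true)] (g := y k) (by simp [ev])
    simpa [wt] using h1

end Pool.Agent.N499.UM
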